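import Pool.Agent.W46.HM.Stm

/-!
# Sharper deficiency bookkeeping for the arithmetic Kakeya maximal estimate

The general oracle may contain the mutual information of the height and the line: in the step of
the iteration this term costs nothing.  This lowers the coefficient of the deficiency, and the
whole argument works from the dimension `n = 10` on (instead of `n = 26`).
-/

set_option autoImplicit false

open Finset
open scoped Classical

namespace Pool.Agent.Y244.HM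
open Pool.Agent.W904.AK Pool.Agent.W46.HD Pool.Agent.W46.HM

section Defs

variable {Ω : Type} [Fintype Ω] {d n : ℕ}

/-- General oracle with a mutual information term. -/
def OrM (n : ℕ) (A D : Ω → Fin d → ℝ) (b G C : ℝ) : Prop :=
  ∀ p : Ω × Fin n → ℝ, IsLaw p → aa p ≤ b * hh A D p + G * lam p + mi p + C

end Defs

/-- General oracle for all families in dimension `d`. -/
def AllM (d : ℕ) (b G : ℝ) : Prop := ∃ C : ℝ, 0 ≤ C ∧ ∀ (n : ℕ) (Ω : Type) [Fintype Ω]
    (A D : Ω → Fin d → ℝ), IsFam n D → OrM n A D b G C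

/-- The conditional oracle. -/
def S_OCM : Prop := ∀ (d n : ℕ) (Ω : Type) [Fintype Ω] (A D : Ω → Fin d → ℝ) (b G C : ℝ),
    OrM n A D b G C →
    ∀ (Θ : Type) [Fintype Θ] (γ : Type) (q : Θ → ℝ) (l : Θ → Ω) (j : Θ → Fin n) (Q : Θ → γ),
    IsLaw q →
    H q (fun z => (Q z, l z)) - H q Q ≤
      b * (H q (fun z => (Q z, j z, cell A D (j z) (l z))) - H q (fun z => (Q z, j z))) +
      G * (Real.log n - (H q (fun z => (Q z, l z, j z)) - H q (fun z => (Q z, l z)))) +
      ((H q (fun z => (Q z, j z)) - H q Q) -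
        (H q (fun z => (Q z, l z, j z)) - H q (fun z => (Q z, l z)))) + C

theorem OCM : S_OCM := by
  intro d n Ω _ A D b G C hO Θ _ γ q l j Q hq
  have e0 := chain hq Q l
  have e1 := chain hq Q (fun z => (j z, cell A D (j z) (l z)))
  have e2 := chain hq Q j
  have e3 := chain hq Q (fun z => (l z, j z))
  have key : ∀ x, q x * H (cd q Q (Q x)) l ≤
      b * (q x * H (cd q Q (Q x)) (fun z => (j z, cell A D (j z) (l z))) -
        q x * H (cd q Q (Q x)) j) +
      (G * (q x * Real.log n - (q x * H (cd q Q (Q x)) (fun z => (l z, j z)) -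
        q x * H (cd q Q (Q x)) l)) +
      (q x * H (cd q Q (Q x)) j - (q x * H (cd q Q (Q x)) (fun z => (l z, j z)) -
        q x * H (cd q Q (Q x)) l) + q x * C)) := by
    intro x
    by_cases hx : q x = 0
    · simp [hx]
    · have hlaw : IsLaw (cd q Q (Q x)) := cd_law hq Q (im_pos hq Q hx).ne'
      have h1 := hO (im (cd q Q (Q x)) fun z => (l z, j z)) (hlaw.im _)
      unfold aa hh lam mi at h1
      simp only [H_im, id_eq] at h1
      have h2 := mul_le_mul_of_nonneg_left h1 (hq.nonneg x)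
      refine h2.trans (le_of_eq ?_)
      ring
  have hsum := Finset.sum_le_sum fun x (_ : x ∈ (Finset.univ : Finset Θ)) => key x
  rw [Finset.sum_add_distrib, Finset.sum_add_distrib, Finset.sum_add_distrib,
    ← Finset.mul_sum, ← Finset.mul_sum,
    Finset.sum_sub_distrib, Finset.sum_sub_distrib, Finset.sum_sub_distrib,
    Finset.sum_sub_distrib, Finset.sum_sub_distrib, ← Finset.sum_mul,
    ← Finset.sum_mul, hq.total, ← e0, ← e1, ← e2, ← e3] at hsum
  refine hsum.trans (le_of_eq ?_)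
  ring

/-- The deficiency of the height `t` given the two meeting lines and the integer `yy`. -/
noncomputable def wT {Ω Θ : Type} [Fintype Θ] {n : ℕ} (q : Θ → ℝ) (l1 l3 : Θ → Ω)
    (s0 s1 t t' : Θ → Fin n) : ℝ :=
  Real.log n - (H q (fun z => (l1 z, l3 z, s0 z, s1 z, yy (s0 z) (s1 z) (t z) (t' z), t z)) -
    H q (fun z => (l1 z, l3 z, s0 z, s1 z, yy (s0 z) (s1 z) (t z) (t' z))))

/-- The upper bound for `phi`. -/
def S_UPM : Prop := ∀ (d : ℕ) (b G C : ℝ), 1 < b → 0 ≤ G → 0 ≤ C → ∃ C' : ℝ, 0 ≤ C' ∧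
    ∀ (n : ℕ) (Ω : Type) [Fintype Ω] (A D : Ω → Fin d → ℝ), IsFam n D → OrM n A D b G C →
    ∀ (p : Ω × Fin n → ℝ), IsLaw p →
    ∀ (Θ : Type) [Fintype Θ] (q : Θ → ℝ) (l1 l2 l3 : Θ → Ω) (s0 s1 t t' τ v : Θ → Fin n),
    CfgT A D p q l1 l2 l3 s0 s1 t t' τ v →
    2 * aa p - hh A D p + (b - 1) * ph A D q l1 l3 s0 s1 t t' ≤
      b * (H q (fun z => (s0 z, t z, t' z, cell A D (t z) (l1 z), cell A D (t' z) (l3 z))) -
        H q (fun z => (s0 z, t z, t' z))) + (b + G - 1) * wT q l1 l3 s0 s1 t t' +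
        5 * lam p + C' * (1 + sep p) ∧
    wT q l1 l3 s0 s1 t t' ≤ 2 * lam p + C' * (1 + sep p)

/-- The lower bound for `phi`. -/
def S_KTM : Prop := ∀ (d : ℕ) (b G C : ℝ), 1 < b → 0 ≤ G → 0 ≤ C → ∃ C' : ℝ, 0 ≤ C' ∧
    ∀ (n : ℕ) (Ω : Type) [Fintype Ω] (A D : Ω → Fin d → ℝ), IsFam n D → OrM n A D b G C →
    ∀ (p : Ω × Fin n → ℝ), IsLaw p →
    ∀ (Θ : Type) [Fintype Θ] (q : Θ → ℝ) (l1 l2 l3 : Θ → Ω) (s0 s1 t t' τ v : Θ → Fin n),
    CfgT A D p q l1 l2 l3 s0 s1 t t' τ v →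
    ∃ w : ℝ, wT q l1 l3 s0 s1 t t' + w ≤ 3 * lam p + C' * (1 + sep p) ∧
    3 * aa p - 2 * hh A D p + (b - 1) * (aa p +
      (H q (fun z => (s0 z, s1 z, v z, cell A D (s0 z) (l1 z), cell A D (v z) (l2 z))) -
        H q (fun z => (s0 z, s1 z, v z))) - 2 * hh A D p) ≤
      b * (hh A D p + ph A D q l1 l3 s0 s1 t t') + G * w - b * wT q l1 l3 s0 s1 t t' +
        (4 * b + 4) * lam p + C' * (1 + sep p)

/-- The step. -/
def S_STEPM : Prop := ∀ (d : ℕ) (b G : ℝ), 1 < b → 0 ≤ G → AllM d b G →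
    AllT d ((3 * b ^ 2 + 2 * b - 2) / (b ^ 2 + 3 * b - 2))
      ((4 * b ^ 2 + 5 * b - 4 + (3 * b - 1) * G) / (b ^ 2 + 3 * b - 2))

/-- From the two-ends oracle to the general oracle. -/
def S_TOM : Prop := ∀ (d : ℕ) (b G ε : ℝ), 0 ≤ b → 0 < ε → ε < 1 → 0 ≤ G → AllT d b G →
    AllM d b (max G ((d + ε) / (1 - ε)))

/-- The iteration: everything up to the exponent `1.67518`. -/
def S_ITERM : Prop := ∀ d : ℕ, 9 ≤ d → AllS d (167518 / 100000)

end Pool.Agent.Y244.HM
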