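import Pool.Agent.W372.HM.LevMom
import Pool.Agent.W22.HM.WIN
import Pool.Agent.W46.HM.Allw
import Pool.Agent.W605.HM.TubeQ
import Pool.Agent.W101.HM.Weak
import Pool.Agent.W902.HM.STRONG

/-!
# From the scale invariant inequality to the Kakeya maximal estimate, for one dimension and exponent

The pipeline of project HM for a fixed dimension `d` and a fixed exponent.
-/

set_option autoImplicit false

open Finset MeasureTheory
open scoped Classical ENNReal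

namespace Pool.Agent.Y244.HM
open Pool.Agent.W904.AK Pool.Agent.W46.HD Pool.Agent.W46.HM Pool.Agent.W46.KK

/-- Level sets of the multiplicity. -/
def LevP (d : ℕ) (c : ℝ) : Prop := ∃ C : ℝ, 0 ≤ C ∧
    ∀ (n : ℕ) (Ω : Type) [Fintype Ω] [Nonempty Ω] (A D : Ω → Fin d → ℝ), IsFam n D →
    ∀ (F : Finset (Fin n × (Fin d → ℤ))) (m : ℝ), 1 ≤ m →
    (∀ x ∈ F, m ≤ mult A D x.1 x.2) →
    (F.card : ℝ) ≤ C * n * (Fintype.card Ω : ℝ) ^ (-(1 : ℝ) / d) *
      ((Fintype.card Ω : ℝ) / m) ^ (1 + c / d)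

/-- Moments of the multiplicity of the cells. -/
def MomP (d : ℕ) (q : ℝ) : Prop :=
    ∃ C : ℝ, 0 ≤ C ∧ ∀ (n : ℕ) (Ω : Type) [Fintype Ω] [Nonempty Ω] (A D : Ω → Fin d → ℝ),
    IsFam n D → ∀ F : Finset (Fin n × (Fin d → ℤ)),
    ∑ x ∈ F, ((mult A D x.1 x.2 : ℕ) : ℝ) ^ q ≤
      C * n * (Fintype.card Ω : ℝ) ^ (q - 1 / (d : ℝ))

/-- One window of heights. -/
def WinP (d : ℕ) (q : ℝ) : Prop := ∀ R : ℝ, 0 < R →
    ∃ C : ℝ, 0 ≤ C ∧ ∀ (N : ℕ) (Ω : Type) [Fintype Ω] (P v : Ω → Fin d → ℝ) (t0 r : ℝ), 1 ≤ N →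
    0 ≤ r → N * r ≤ R → (∀ ω k, |v ω k| ≤ 1) →
    (∀ ω ω', (∀ k, ⌊(N : ℝ) * ((v ω k + 1) / 2)⌋ = ⌊(N : ℝ) * ((v ω' k + 1) / 2)⌋) → ω = ω') →
    ∫⁻ z : ℝ × (Fin d → ℝ) in Set.Ico t0 (t0 + 1) ×ˢ (Set.univ : Set (Fin d → ℝ)),
      (∑ ω, (if (∀ k, |z.2 k - (P ω k + z.1 * v ω k)| ≤ r) then (1 : ℝ≥0∞) else 0)) ^ q ≤
    ENNReal.ofReal (C * (N : ℝ) ^ (-(d : ℝ)) * (Fintype.card Ω : ℝ) ^ (q - 1 / (d : ℝ)))

/-- All heights, tubes of length about one at arbitrary heights. -/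
def AllwP (d : ℕ) (q : ℝ) : Prop := ∀ R : ℝ, 0 < R →
    ∃ C : ℝ, 0 ≤ C ∧ ∀ (N : ℕ) (Ω : Type) [Fintype Ω] (P v : Ω → Fin d → ℝ) (b : Ω → ℝ) (r : ℝ),
    1 ≤ N → 0 ≤ r → N * r ≤ R → (∀ ω k, |v ω k| ≤ 1) →
    (∀ ω ω', (∀ k, ⌊(N : ℝ) * ((v ω k + 1) / 2)⌋ = ⌊(N : ℝ) * ((v ω' k + 1) / 2)⌋) → ω = ω') →
    ∫⁻ z : ℝ × (Fin d → ℝ), (∑ ω, (if (|z.1 - b ω| ≤ 3 / 2 ∧
        ∀ k, |z.2 k - (P ω k + z.1 * v ω k)| ≤ r) then (1 : ℝ≥0∞) else 0)) ^ q ≤
    ENNReal.ofReal (C * (N : ℝ) ^ (-(d : ℝ)) * (Fintype.card Ω : ℝ) ^ (q - 1 / (d : ℝ)))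

/-- The `L^q` norm of a sum of `δ`-tubes with `δ`-separated directions. -/
def TubeP (d : ℕ) (q : ℝ) : Prop :=
    ∃ C : ℝ, 0 < C ∧ ∀ δ : ℝ, 0 < δ → δ ≤ 1 → ∀ (ι : Type) [Fintype ι]
    (a e : ι → EuclideanSpace ℝ (Fin (d + 1))), (∀ i, ‖e i‖ = 1) →
    (∀ i j, i ≠ j → δ ≤ ‖e i - e j‖) →
    ∫⁻ x, (∑ i, (tube δ (a i) (e i)).indicator (fun _ => (1 : ℝ≥0∞)) x) ^ q ≤
      ENNReal.ofReal (C * δ ^ (d : ℝ) * (Fintype.card ι : ℝ) ^ (q - 1 / (d : ℝ)))

/-- Weak type estimate for the Kakeya maximal function. -/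
def WeakP (d : ℕ) (c : ℝ) : Prop := ∃ C : ℝ, 0 < C ∧ ∀ δ : ℝ, 0 < δ → δ < 1 →
    ∀ f : EuclideanSpace ℝ (Fin (d + 1)) → ℝ≥0∞, AEMeasurable f volume →
    ∀ l : ℝ, 0 < l →
    (volume : Measure (EuclideanSpace ℝ (Fin (d + 1)))).toSphere
        {e | ENNReal.ofReal l < kmax δ f (e : EuclideanSpace ℝ (Fin (d + 1)))} ≤
      ENNReal.ofReal (C * δ ^ (-((c - 1) * (d : ℝ))) *
        l ^ (-((d : ℝ) + c))) *
      (∫⁻ y, f y ^ (1 + (d : ℝ) / c)) ^ c

/-- Strong type estimate. -/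
def StrongP (d : ℕ) (c : ℝ) : Prop := ∃ C : ℝ, 0 < C ∧ ∀ δ : ℝ, 0 < δ → δ < 1 →
    ∀ f : EuclideanSpace ℝ (Fin (d + 1)) → ℝ≥0∞, AEMeasurable f volume →
    ∫⁻ e : Metric.sphere (0 : EuclideanSpace ℝ (Fin (d + 1))) 1,
        kmax δ f e ^ (1 + (d : ℝ) / c)
        ∂(volume : Measure (EuclideanSpace ℝ (Fin (d + 1)))).toSphere ≤
      ENNReal.ofReal (C * δ ^ (-((d : ℝ) - (d : ℝ) / c))) *
        ∫⁻ y, f y ^ (1 + (d : ℝ) / c)

theorem levP {d : ℕ} (hd : 1 ≤ d) {b c : ℝ} (hb : 1 ≤ b) (hbc : b < c) (h : AllS d b) :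
    LevP d c := by
  obtain ⟨C0, hC0, hS⟩ := h (c - b) (by linarith)
  refine ⟨Real.exp (C0 / d), (Real.exp_pos _).le, ?_⟩
  intro n Ω _ _ A D hfam F m hm hF
  have hn : (1 : ℝ) ≤ n := by exact_mod_cast hfam.pos
  have hM : (1 : ℝ) ≤ (Fintype.card Ω : ℝ) := by exact_mod_cast Fintype.card_pos
  have hdp : (0 : ℝ) < d := by
    have : 0 < d := by omega
    exact_mod_cast this
  rcases F.eq_empty_or_nonempty with hE | hE
  · rw [hE, Finset.card_empty, Nat.cast_zero]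
    positivity
  obtain ⟨Inc, hInc⟩ : ∃ Inc : Finset (Ω × Fin n),
      Inc = Finset.univ.filter fun z : Ω × Fin n => (z.2, cell A D z.2 z.1) ∈ F := ⟨_, rfl⟩
  have hcard : m * F.card ≤ Inc.card := by
    have h1 : Inc.card = ∑ x ∈ F, mult A D x.1 x.2 := by
      have h0 := Finset.card_eq_sum_card_fiberwise
        (s := Finset.univ.filter fun z : Ω × Fin n => (z.2, cell A D z.2 z.1) ∈ F)
        (f := fun z : Ω × Fin n => (z.2, cell A D z.2 z.1)) (t := F)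
        (fun z hz => by simpa using hz)
      rw [hInc, h0]
      refine Finset.sum_congr rfl fun x hx => ?_
      unfold mult
      refine Finset.card_bij (fun z _ => z.1) ?_ ?_ ?_
      · intro z hz
        rw [Finset.mem_filter, Finset.mem_filter] at hz
        rw [Finset.mem_filter]
        refine ⟨Finset.mem_univ _, ?_⟩
        rw [← hz.2]
      · intro z hz z' hz' hzz
        rw [Finset.mem_filter] at hz hz'
        have e1 := congrArg Prod.fst (hz.2.trans hz'.2.symm)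
        exact Prod.ext hzz e1
      · intro w hw
        rw [Finset.mem_filter] at hw
        refine ⟨(w, x.1), ?_, rfl⟩
        rw [Finset.mem_filter, Finset.mem_filter]
        have e1 : (x.1, cell A D x.1 w) = x := by rw [hw.2]
        exact ⟨⟨Finset.mem_univ _, by rw [e1]; exact hx⟩, e1⟩
    rw [h1, mul_comm]
    push_cast
    rw [← nsmul_eq_mul]
    exact Finset.card_nsmul_le_sum F _ m hF
  have hFc : (0 : ℝ) < F.card := by exact_mod_cast hE.card_pos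
  have hIc : (0 : ℝ) < Inc.card := lt_of_lt_of_le (by positivity) hcard
  have hIne : Inc.Nonempty := by
    rw [← Finset.card_pos]
    exact_mod_cast hIc
  obtain ⟨p, hlaw, hp, hid⟩ := Pool.Agent.W372.HM.H_id_unif Inc hIne
  have hmain := hS n Ω A D hfam p hlaw
  have hJ : H p (fun z => (z.2, cell A D z.2 z.1)) ≤ Real.log F.card := by
    refine H_le_log_card hlaw _ F fun z hz => ?_
    have : z ∈ Inc := hp z hz
    rw [hInc, Finset.mem_filter] at this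
    exact this.2
  have hh1 : H p Prod.fst ≤ Real.log (Fintype.card Ω) := by
    have := H_le_log_card hlaw (Prod.fst : Ω × Fin n → Ω) Finset.univ
      (fun _ _ => Finset.mem_univ _)
    rwa [Finset.card_univ] at this
  have hi : Real.log m + Real.log F.card ≤ Real.log Inc.card := by
    rw [← Real.log_mul (by positivity) (by positivity)]
    exact Real.log_le_log (by positivity) hcard
  unfold aa hh mi lam at hmain
  rw [hid] at hmain
  obtain ⟨J, hJ'⟩ : ∃ J, J = H p (fun z => (z.2, cell A D z.2 z.1)) := ⟨_, rfl⟩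
  obtain ⟨a, ha'⟩ : ∃ a, a = H p Prod.fst := ⟨_, rfl⟩
  obtain ⟨s, hs'⟩ : ∃ s, s = H p (Prod.snd : Ω × Fin n → Fin n) := ⟨_, rfl⟩
  obtain ⟨i, hi'⟩ : ∃ i, i = Real.log Inc.card := ⟨_, rfl⟩
  obtain ⟨f, hf'⟩ : ∃ f, f = Real.log F.card := ⟨_, rfl⟩
  obtain ⟨LM, hLM⟩ : ∃ LM, LM = Real.log (Fintype.card Ω) := ⟨_, rfl⟩
  obtain ⟨Lm, hLm⟩ : ∃ Lm, Lm = Real.log m := ⟨_, rfl⟩
  obtain ⟨Ln, hLn⟩ : ∃ Ln, Ln = Real.log n := ⟨_, rfl⟩
  rw [← hJ', ← ha', ← hs', ← hi', ← hLM, ← hLn] at hmain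
  rw [← hJ', ← hf'] at hJ
  rw [← ha', ← hLM] at hh1
  rw [← hLm, ← hf', ← hi'] at hi
  have hd1 : (1 : ℝ) ≤ d := by exact_mod_cast hd
  have hfin : d * f ≤ d * Ln - LM + (d + c) * (LM - Lm) + C0 := by
    have e1 : 0 ≤ ((d : ℝ) + c) * (i - (Lm + f)) :=
      mul_nonneg (by linarith) (by linarith)
    have e2 : 0 ≤ ((d : ℝ) + b - 1) * (LM - a) :=
      mul_nonneg (by linarith) (by linarith)
    have e3 : 0 ≤ c * (f - J) := mul_nonneg (by linarith) (by linarith)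
    nlinarith
  have hfin2 : f ≤ C0 / d + Ln + (-(1 : ℝ) / d) * LM + (1 + c / d) * (LM - Lm) := by
    have e1 : C0 / d + Ln + (-(1 : ℝ) / d) * LM + (1 + c / d) * (LM - Lm) =
        (d * Ln - LM + (d + c) * (LM - Lm) + C0) / d := by
      field_simp
      ring
    rw [e1, le_div_iff₀ hdp]
    linarith
  have hM0 : (0 : ℝ) < (Fintype.card Ω : ℝ) := by linarith
  have hm0 : 0 < m := by linarith
  have hn0 : (0 : ℝ) < n := by linarith
  calc (F.card : ℝ) = Real.exp f := by rw [hf', Real.exp_log hFc]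
    _ ≤ Real.exp (C0 / d + Ln + (-(1 : ℝ) / d) * LM + (1 + c / d) * (LM - Lm)) :=
        Real.exp_le_exp.2 hfin2
    _ = Real.exp (C0 / d) * n * (Fintype.card Ω : ℝ) ^ (-(1 : ℝ) / d) *
        ((Fintype.card Ω : ℝ) / m) ^ (1 + c / (d : ℝ)) := by
        rw [Real.exp_add, Real.exp_add, Real.exp_add, hLn, Real.exp_log hn0,
          Real.rpow_def_of_pos hM0, Real.rpow_def_of_pos (div_pos hM0 hm0),
          Real.log_div hM0.ne' hm0.ne', ← hLM, ← hLm, mul_comm LM, mul_comm (LM - Lm)]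

theorem momP {d : ℕ} (hd : 1 ≤ d) {c' c0 q : ℝ} (hc' : 0 < c') (hcc : c' < c0)
    (hq : 1 + c0 / (d : ℝ) ≤ q) (h : LevP d c') : MomP d q := by
  obtain ⟨C0, hC0, hL⟩ := h
  have hdp : (0 : ℝ) < d := by
    have : 0 < d := by omega
    exact_mod_cast this
  obtain ⟨c, hc⟩ : ∃ c : ℝ, c = 1 + c' / (d : ℝ) := ⟨_, rfl⟩
  obtain ⟨δ, hδ⟩ : ∃ δ : ℝ, δ = q - c := ⟨_, rfl⟩
  have hδ0 : 0 < δ := by
    have : (0 : ℝ) < c0 / (d : ℝ) - c' / (d : ℝ) := by
      rw [← sub_div]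
      exact div_pos (by linarith) hdp
    rw [hδ, hc]
    linarith
  have hq0 : 0 < q := by
    have : (0 : ℝ) < c0 / (d : ℝ) := div_pos (by linarith) hdp
    linarith
  obtain ⟨r, hr⟩ : ∃ r : ℝ, r = (2 : ℝ) ^ δ := ⟨_, rfl⟩
  have hr1 : 1 < r := by
    rw [hr]
    exact Real.one_lt_rpow (by norm_num) hδ0
  refine ⟨C0 * (2 ^ q * (r / (r - 1))), by
    have : 0 < r - 1 := by linarith
    positivity, ?_⟩
  intro n Ω _ _ A D hfam F
  have hM : (1 : ℝ) ≤ (Fintype.card Ω : ℝ) := by exact_mod_cast Fintype.card_pos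
  have hM0 : (0 : ℝ) < (Fintype.card Ω : ℝ) := by linarith
  obtain ⟨μ, hμ⟩ : ∃ μ : Fin n × (Fin d → ℤ) → ℕ, μ = fun x => mult A D x.1 x.2 := ⟨_, rfl⟩
  obtain ⟨K, hK⟩ : ∃ K, K = Nat.log 2 (Fintype.card Ω) := ⟨_, rfl⟩
  have hμM : ∀ x, μ x ≤ Fintype.card Ω := by
    intro x
    rw [hμ]
    exact Finset.card_le_univ _
  obtain ⟨F', hF'⟩ : ∃ F', F' = F.filter fun x => 1 ≤ μ x := ⟨_, rfl⟩
  have h1 : ∑ x ∈ F, ((mult A D x.1 x.2 : ℕ) : ℝ) ^ q = ∑ x ∈ F', ((μ x : ℕ) : ℝ) ^ q := by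
    rw [hF', Finset.sum_filter]
    refine Finset.sum_congr rfl fun x _ => ?_
    split_ifs with hx
    · rw [hμ]
    · have : μ x = 0 := by omega
      have h2 : mult A D x.1 x.2 = μ x := by rw [hμ]
      rw [h2, this, Nat.cast_zero, Real.zero_rpow hq0.ne']
  have h2 : ∀ x ∈ F', ((μ x : ℕ) : ℝ) ^ q ≤ 2 ^ q * ((2 : ℝ) ^ q) ^ (Nat.log 2 (μ x)) := by
    intro x hx
    have h3 : μ x < 2 ^ (Nat.log 2 (μ x) + 1) := Nat.lt_pow_succ_log_self (by norm_num) _
    have h4 : ((μ x : ℕ) : ℝ) ≤ 2 ^ (Nat.log 2 (μ x) + 1) := by exact_mod_cast h3.le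
    calc ((μ x : ℕ) : ℝ) ^ q ≤ ((2 : ℝ) ^ (Nat.log 2 (μ x) + 1)) ^ q :=
          Real.rpow_le_rpow (by positivity) h4 hq0.le
      _ = 2 ^ q * ((2 : ℝ) ^ q) ^ (Nat.log 2 (μ x)) := by
          rw [pow_succ, mul_comm, Real.mul_rpow (by positivity) (by positivity),
            ← Real.rpow_natCast, ← Real.rpow_natCast, ← Real.rpow_mul (by norm_num),
            ← Real.rpow_mul (by norm_num), mul_comm (Nat.log 2 (μ x) : ℝ) q]
  have h3 : ∀ x ∈ F', Nat.log 2 (μ x) ∈ Finset.range (K + 1) := by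
    intro x _
    rw [Finset.mem_range, hK]
    exact Nat.lt_succ_of_le (Nat.log_mono_right (hμM x))
  have h4 : ∀ k ∈ Finset.range (K + 1),
      ((F'.filter fun x => Nat.log 2 (μ x) = k).card : ℝ) ≤
        C0 * n * (Fintype.card Ω : ℝ) ^ (-(1 : ℝ) / d) *
          ((Fintype.card Ω : ℝ) / 2 ^ k) ^ c := by
    intro k _
    rw [hc]
    refine hL n Ω A D hfam _ (2 ^ k) (one_le_pow₀ (by norm_num)) ?_
    intro x hx
    rw [Finset.mem_filter, hF', Finset.mem_filter] at hx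
    have h5 : 2 ^ k ≤ μ x := by
      rw [← hx.2]
      exact Nat.pow_log_le_self 2 (by omega)
    have h6 : mult A D x.1 x.2 = μ x := by rw [hμ]
    rw [h6]
    exact_mod_cast h5
  have hgeo : ∑ k ∈ Finset.range (K + 1), r ^ k ≤ r / (r - 1) * (Fintype.card Ω : ℝ) ^ δ := by
    have h5 : r ^ K ≤ (Fintype.card Ω : ℝ) ^ δ := by
      have h6 : (2 : ℝ) ^ K ≤ Fintype.card Ω := by
        have : 2 ^ K ≤ Fintype.card Ω := by
          rw [hK]
          exact Nat.pow_log_le_self 2 Fintype.card_ne_zero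
        exact_mod_cast this
      calc r ^ K = ((2 : ℝ) ^ K) ^ δ := by
            rw [hr, ← Real.rpow_natCast, ← Real.rpow_natCast, ← Real.rpow_mul (by norm_num),
              ← Real.rpow_mul (by norm_num), mul_comm]
        _ ≤ _ := Real.rpow_le_rpow (by positivity) h6 hδ0.le
    have h6 : 0 < r - 1 := by linarith
    rw [geom_sum_eq hr1.ne']
    calc (r ^ (K + 1) - 1) / (r - 1) ≤ r ^ (K + 1) / (r - 1) := by
          gcongr
          linarith
      _ = r / (r - 1) * r ^ K := by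
          rw [pow_succ]
          ring
      _ ≤ _ := mul_le_mul_of_nonneg_left h5 (by positivity)
  rw [h1]
  calc ∑ x ∈ F', ((μ x : ℕ) : ℝ) ^ q
      ≤ ∑ x ∈ F', 2 ^ q * ((2 : ℝ) ^ q) ^ (Nat.log 2 (μ x)) := Finset.sum_le_sum h2
    _ = ∑ k ∈ Finset.range (K + 1), ∑ x ∈ F' with Nat.log 2 (μ x) = k,
          2 ^ q * ((2 : ℝ) ^ q) ^ (Nat.log 2 (μ x)) :=
        (Finset.sum_fiberwise_of_maps_to h3 _).symm
    _ = ∑ k ∈ Finset.range (K + 1), ((F'.filter fun x => Nat.log 2 (μ x) = k).card : ℝ) *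
          (2 ^ q * ((2 : ℝ) ^ q) ^ k) := by
        refine Finset.sum_congr rfl fun k _ => ?_
        rw [← nsmul_eq_mul, ← Finset.sum_const]
        refine Finset.sum_congr rfl fun x hx => ?_
        rw [(Finset.mem_filter.1 hx).2]
    _ ≤ ∑ k ∈ Finset.range (K + 1), (C0 * n * (Fintype.card Ω : ℝ) ^ (-(1 : ℝ) / d) *
          ((Fintype.card Ω : ℝ) / 2 ^ k) ^ c) * (2 ^ q * ((2 : ℝ) ^ q) ^ k) := by
        refine Finset.sum_le_sum fun k hk => ?_
        exact mul_le_mul_of_nonneg_right (h4 k hk) (by positivity)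
    _ = ∑ k ∈ Finset.range (K + 1), (C0 * n * (Fintype.card Ω : ℝ) ^ (-(1 : ℝ) / d) *
          (Fintype.card Ω : ℝ) ^ c * 2 ^ q) * r ^ k := by
        refine Finset.sum_congr rfl fun k _ => ?_
        have e1 : ((Fintype.card Ω : ℝ) / 2 ^ k) ^ c * ((2 : ℝ) ^ q) ^ k =
            (Fintype.card Ω : ℝ) ^ c * r ^ k := by
          rw [Real.div_rpow (by positivity) (by positivity), hr, hδ, ← Real.rpow_natCast,
            ← Real.rpow_natCast, ← Real.rpow_natCast, ← Real.rpow_mul (by norm_num),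
            ← Real.rpow_mul (by norm_num), ← Real.rpow_mul (by norm_num), div_mul_eq_mul_div,
            mul_div_assoc, ← Real.rpow_sub (by norm_num)]
          congr 2
          ring
        calc (C0 * n * (Fintype.card Ω : ℝ) ^ (-(1 : ℝ) / d) *
              ((Fintype.card Ω : ℝ) / 2 ^ k) ^ c) * (2 ^ q * ((2 : ℝ) ^ q) ^ k)
            = C0 * n * (Fintype.card Ω : ℝ) ^ (-(1 : ℝ) / d) * 2 ^ q *
              (((Fintype.card Ω : ℝ) / 2 ^ k) ^ c * ((2 : ℝ) ^ q) ^ k) := by ring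
          _ = _ := by
            rw [e1]
            ring
    _ = (C0 * n * (Fintype.card Ω : ℝ) ^ (-(1 : ℝ) / d) *
          (Fintype.card Ω : ℝ) ^ c * 2 ^ q) * ∑ k ∈ Finset.range (K + 1), r ^ k :=
        (Finset.mul_sum _ _ _).symm
    _ ≤ (C0 * n * (Fintype.card Ω : ℝ) ^ (-(1 : ℝ) / d) *
          (Fintype.card Ω : ℝ) ^ c * 2 ^ q) * (r / (r - 1) * (Fintype.card Ω : ℝ) ^ δ) :=
        mul_le_mul_of_nonneg_left hgeo (by positivity)
    _ = C0 * (2 ^ q * (r / (r - 1))) * n * ((Fintype.card Ω : ℝ) ^ (-(1 : ℝ) / d) *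
          (Fintype.card Ω : ℝ) ^ c * (Fintype.card Ω : ℝ) ^ δ) := by ring
    _ = C0 * (2 ^ q * (r / (r - 1))) * n * (Fintype.card Ω : ℝ) ^ (q - 1 / (d : ℝ)) := by
        rw [← Real.rpow_add hM0, ← Real.rpow_add hM0]
        congr 2
        rw [hδ]
        ring

theorem winP {d : ℕ} (hd : 1 ≤ d) {q : ℝ} (hq1 : 1 < q) (h : MomP d q) : WinP d q := by
  intro R hR
  have hd0 : (0 : ℝ) < d := by
    have : (1 : ℝ) ≤ d := by exact_mod_cast hd
    linarith
  have hq0 : 0 < q := by linarith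
  have hqd : 0 < q - 1 / (d : ℝ) := by
    have h1 : 1 / (d : ℝ) ≤ 1 := by
      rw [div_le_one hd0]
      exact_mod_cast hd
    linarith
  obtain ⟨C0, hC0, hM⟩ := h
  set K : ℕ := ⌈R + 3⌉₊ with hKdef
  have hK : R + 3 ≤ K := Nat.le_ceil _
  set O : Finset (Fin d → ℤ) := Pool.Agent.W22.HM.Off d K with hO
  refine ⟨(O.card : ℝ) ^ (q + 1) * 2 ^ d * C0, by positivity, ?_⟩
  intro N Ω _ P v t0 r hN hr hNr hv hinj
  have hN0 : (0 : ℝ) < N := by exact_mod_cast hN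
  rcases isEmpty_or_nonempty Ω with hE | hE
  · refine le_trans (le_of_eq ?_) (zero_le)
    simp only [Finset.univ_eq_empty, Finset.sum_empty, ENNReal.zero_rpow_of_pos hq0]
    exact lintegral_zero
  set D : Ω → Fin d → ℝ := fun ω k => (v ω k + 1) / 2 with hD
  set A : Ω → Fin d → ℝ := fun ω k => (N : ℝ) * (P ω k + t0 * v ω k) / 2 with hA
  have hfam : IsFam N D := by
    refine ⟨hN, fun ω i => ?_, fun ω i => ?_, hinj⟩
    · have := abs_le.1 (hv ω i)
      simp only [hD]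
      linarith
    · have := abs_le.1 (hv ω i)
      simp only [hD]
      linarith
  set F : Finset (Fin N × (Fin d → ℤ)) :=
    Finset.univ.image fun x : Fin N × Ω => (x.1, cell A D x.1 x.2) with hF
  have hMF := hM N Ω A D hfam F
  -- the pointwise bound
  have hpt : ∀ z ∈ Set.Ico t0 (t0 + 1) ×ˢ (Set.univ : Set (Fin d → ℝ)),
      (∑ ω, (if (∀ k, |z.2 k - (P ω k + z.1 * v ω k)| ≤ r) then (1 : ℝ≥0∞) else 0)) ^ q ≤
      ∑ o ∈ O, ∑ x ∈ F, ((O.card : ℝ≥0∞) ^ q * ((mult A D x.1 x.2 : ℕ) : ℝ≥0∞) ^ q) *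
        (Pool.Agent.W22.HM.Bx N t0 x.1 (x.2 - o)).indicator 1 z := by
    rintro ⟨t, y⟩ hz
    have ht : t0 ≤ t ∧ t < t0 + 1 := by
      have := hz.1
      exact this
    have hnn : 0 ≤ (N : ℝ) * (t - t0) := mul_nonneg hN0.le (by linarith [ht.1])
    have hlt : ⌊(N : ℝ) * (t - t0)⌋₊ < N := by
      rw [Nat.floor_lt hnn]
      have : t - t0 < 1 := by linarith [ht.2]
      nlinarith
    set j : Fin N := ⟨⌊(N : ℝ) * (t - t0)⌋₊, hlt⟩ with hj
    have hj1 : ((j : ℕ) : ℝ) ≤ N * (t - t0) := Nat.floor_le hnn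
    have hj2 : N * (t - t0) < ((j : ℕ) : ℝ) + 1 := Nat.lt_floor_add_one _
    set c : Fin d → ℤ := fun k => ⌊(N : ℝ) * (y k + (t - t0)) / 2⌋ with hc
    have hzB : (t, y) ∈ Pool.Agent.W22.HM.Bx N t0 j c := by
      refine ⟨⟨?_, ?_⟩, fun k => ⟨?_, ?_⟩⟩
      · have : ((j : ℕ) : ℝ) / N ≤ t - t0 := by
          rw [div_le_iff₀ hN0]; linarith
        simp only
        linarith
      · have : t - t0 < (((j : ℕ) : ℝ) + 1) / N := by
          rw [lt_div_iff₀ hN0]; linarith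
        simp only
        linarith
      · have h1 : (c k : ℝ) ≤ (N : ℝ) * (y k + (t - t0)) / 2 := Int.floor_le _
        have h2 : 2 * (c k : ℝ) / N ≤ y k + (t - t0) := by
          rw [div_le_iff₀ hN0]; linarith
        simp only
        linarith
      · have h1 : (N : ℝ) * (y k + (t - t0)) / 2 < (c k : ℝ) + 1 := Int.lt_floor_add_one _
        have h2 : y k + (t - t0) < 2 * ((c k : ℝ) + 1) / N := by
          rw [lt_div_iff₀ hN0]; linarith
        simp only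
        linarith
    have h1 : (∑ ω, (if (∀ k, |y k - (P ω k + t * v ω k)| ≤ r) then (1 : ℝ≥0∞) else 0)) ≤
        ∑ o ∈ O, ((mult A D j (c + o) : ℕ) : ℝ≥0∞) := by
      have h2 : ∀ ω, (if (∀ k, |y k - (P ω k + t * v ω k)| ≤ r) then (1 : ℝ≥0∞) else 0) ≤
          ∑ o ∈ O, if cell A D j ω = c + o then (1 : ℝ≥0∞) else 0 := by
        intro ω
        split_ifs with hω
        · have h3 : cell A D j ω - c ∈ O := by
            rw [hO, Pool.Agent.W22.HM.Off, Fintype.mem_piFinset]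
            intro k
            rw [Finset.mem_Icc, ← abs_le]
            exact Pool.Agent.W22.HM.cell_near hN hNr hK (hv ω k) hj1 hj2 (hω k)
          refine le_trans ?_ (Finset.single_le_sum
            (f := fun o => if cell A D j ω = c + o then (1 : ℝ≥0∞) else 0)
            (fun _ _ => zero_le) h3)
          simp
        · exact zero_le
      refine (Finset.sum_le_sum fun ω _ => h2 ω).trans (le_of_eq ?_)
      rw [Finset.sum_comm]
      refine Finset.sum_congr rfl fun o _ => ?_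
      rw [Finset.sum_boole]
      rfl
    have h3 : ∀ o ∈ O, ((mult A D j (c + o) : ℕ) : ℝ≥0∞) ^ q ≤
        ∑ x ∈ F, ((mult A D x.1 x.2 : ℕ) : ℝ≥0∞) ^ q *
          (Pool.Agent.W22.HM.Bx N t0 x.1 (x.2 - o)).indicator 1 (t, y) := by
      intro o _
      rcases Nat.eq_zero_or_pos (mult A D j (c + o)) with h0 | h0
      · rw [h0, Nat.cast_zero, ENNReal.zero_rpow_of_pos hq0]
        exact zero_le
      · have h4 : (j, c + o) ∈ F := by
          unfold mult at h0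
          rw [gt_iff_lt, Finset.card_pos] at h0
          obtain ⟨ω, hω⟩ := h0
          rw [Finset.mem_filter] at hω
          rw [hF, Finset.mem_image]
          exact ⟨(j, ω), Finset.mem_univ _, by rw [← hω.2]⟩
        refine le_trans ?_ (Finset.single_le_sum
          (f := fun x : Fin N × (Fin d → ℤ) => ((mult A D x.1 x.2 : ℕ) : ℝ≥0∞) ^ q *
            (Pool.Agent.W22.HM.Bx N t0 x.1 (x.2 - o)).indicator 1 (t, y)) (fun _ _ => zero_le) h4)
        simp only [add_sub_cancel_right]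
        rw [Set.indicator_of_mem hzB, Pi.one_apply, mul_one]
    calc (∑ ω, (if (∀ k, |y k - (P ω k + t * v ω k)| ≤ r) then (1 : ℝ≥0∞) else 0)) ^ q
        ≤ (∑ o ∈ O, ((mult A D j (c + o) : ℕ) : ℝ≥0∞)) ^ q := ENNReal.rpow_le_rpow h1 hq0.le
      _ ≤ (O.card : ℝ≥0∞) ^ q * ∑ o ∈ O, ((mult A D j (c + o) : ℕ) : ℝ≥0∞) ^ q :=
          Pool.Agent.W22.HM.pow_sum_le O _ hq0
      _ ≤ (O.card : ℝ≥0∞) ^ q * ∑ o ∈ O, ∑ x ∈ F, ((mult A D x.1 x.2 : ℕ) : ℝ≥0∞) ^ q *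
          (Pool.Agent.W22.HM.Bx N t0 x.1 (x.2 - o)).indicator 1 (t, y) := by
          gcongr with o ho
          exact h3 o ho
      _ = _ := by
          rw [Finset.mul_sum]
          refine Finset.sum_congr rfl fun o _ => ?_
          rw [Finset.mul_sum]
          refine Finset.sum_congr rfl fun x _ => ?_
          rw [mul_assoc]
  have hWm : MeasurableSet (Set.Ico t0 (t0 + 1) ×ˢ (Set.univ : Set (Fin d → ℝ))) :=
    measurableSet_Ico.prod MeasurableSet.univ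
  refine (setLIntegral_mono' hWm hpt).trans ?_
  refine (setLIntegral_le_lintegral _ _).trans ?_
  have hmeas : ∀ (o : Fin d → ℤ) (x : Fin N × (Fin d → ℤ)), Measurable fun z =>
      ((O.card : ℝ≥0∞) ^ q * ((mult A D x.1 x.2 : ℕ) : ℝ≥0∞) ^ q) *
        (Pool.Agent.W22.HM.Bx N t0 x.1 (x.2 - o)).indicator (1 : ℝ × (Fin d → ℝ) → ℝ≥0∞) z := by
    intro o x
    exact (measurable_one.indicator (Pool.Agent.W22.HM.Bx_meas _ _ _ _)).const_mul _
  rw [lintegral_finsetSum _ fun o _ => Finset.measurable_sum _ fun x _ => hmeas o x]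
  have hint : ∀ o ∈ O, ∫⁻ z, ∑ x ∈ F, ((O.card : ℝ≥0∞) ^ q *
      ((mult A D x.1 x.2 : ℕ) : ℝ≥0∞) ^ q) * (Pool.Agent.W22.HM.Bx N t0 x.1 (x.2 - o)).indicator 1 z ≤
      (O.card : ℝ≥0∞) ^ q * ENNReal.ofReal (2 ^ d * (N : ℝ) ^ (-((d : ℝ) + 1))) *
        ∑ x ∈ F, ((mult A D x.1 x.2 : ℕ) : ℝ≥0∞) ^ q := by
    intro o _
    rw [lintegral_finsetSum _ fun x _ => hmeas o x, Finset.mul_sum]
    refine Finset.sum_le_sum fun x _ => ?_
    rw [lintegral_const_mul _ (measurable_one.indicator (Pool.Agent.W22.HM.Bx_meas _ _ _ _)),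
      lintegral_indicator_one (Pool.Agent.W22.HM.Bx_meas _ _ _ _)]
    calc (O.card : ℝ≥0∞) ^ q * ((mult A D x.1 x.2 : ℕ) : ℝ≥0∞) ^ q *
          volume (Pool.Agent.W22.HM.Bx N t0 x.1 (x.2 - o))
        ≤ (O.card : ℝ≥0∞) ^ q * ((mult A D x.1 x.2 : ℕ) : ℝ≥0∞) ^ q *
          ENNReal.ofReal (2 ^ d * (N : ℝ) ^ (-((d : ℝ) + 1))) := by
          gcongr
          exact Pool.Agent.W22.HM.Bx_vol hN _ _ _
      _ = _ := by ring
  refine (Finset.sum_le_sum hint).trans ?_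
  rw [Finset.sum_const, nsmul_eq_mul]
  have hsum : ∑ x ∈ F, ((mult A D x.1 x.2 : ℕ) : ℝ≥0∞) ^ q =
      ENNReal.ofReal (∑ x ∈ F, ((mult A D x.1 x.2 : ℕ) : ℝ) ^ q) := by
    rw [ENNReal.ofReal_sum_of_nonneg fun x _ => by positivity]
    refine Finset.sum_congr rfl fun x _ => ?_
    rw [← ENNReal.ofReal_rpow_of_nonneg (Nat.cast_nonneg _) hq0.le, ENNReal.ofReal_natCast]
  have hOc : (O.card : ℝ≥0∞) ^ q = ENNReal.ofReal ((O.card : ℝ) ^ q) := by
    rw [← ENNReal.ofReal_rpow_of_nonneg (Nat.cast_nonneg _) hq0.le, ENNReal.ofReal_natCast]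
  rw [hsum, hOc, ← ENNReal.ofReal_natCast, ← ENNReal.ofReal_mul (by positivity),
    ← ENNReal.ofReal_mul (by positivity), ← ENNReal.ofReal_mul (by positivity)]
  refine ENNReal.ofReal_le_ofReal ?_
  have hNpow : (N : ℝ) ^ (-((d : ℝ) + 1)) * N = (N : ℝ) ^ (-(d : ℝ)) := by
    have : (N : ℝ) ^ (-(d : ℝ)) = (N : ℝ) ^ (-((d : ℝ) + 1) + 1) := by
      congr 1
      ring
    rw [this, Real.rpow_add hN0, Real.rpow_one]
  calc (O.card : ℝ) * ((O.card : ℝ) ^ q * (2 ^ d * (N : ℝ) ^ (-((d : ℝ) + 1))) *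
        ∑ x ∈ F, ((mult A D x.1 x.2 : ℕ) : ℝ) ^ q)
      ≤ (O.card : ℝ) * ((O.card : ℝ) ^ q * (2 ^ d * (N : ℝ) ^ (-((d : ℝ) + 1))) *
        (C0 * N * (Fintype.card Ω : ℝ) ^ (q - 1 / (d : ℝ)))) := by
        gcongr
    _ = ((O.card : ℝ) ^ q * O.card) * 2 ^ d * C0 * ((N : ℝ) ^ (-((d : ℝ) + 1)) * N) *
        (Fintype.card Ω : ℝ) ^ (q - 1 / (d : ℝ)) := by ring
    _ = _ := by
        rw [hNpow]
        congr 4
        rcases Nat.eq_zero_or_pos O.card with h0 | h0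
        · rw [h0, Nat.cast_zero, mul_zero, Real.zero_rpow (by linarith)]
        · rw [Real.rpow_add (by exact_mod_cast h0), Real.rpow_one]

theorem allwP {d : ℕ} (hd : 1 ≤ d) {q : ℝ} (hq : 1 + 1 / (d : ℝ) ≤ q) (h : WinP d q) :
    AllwP d q := by
  intro R hR
  obtain ⟨C, hC, hW⟩ := h R hR
  have hd0 : (0:ℝ) < d := by
    have : (1:ℝ) ≤ d := by exact_mod_cast hd
    linarith
  have hs : 1 ≤ q - 1/(d:ℝ) := by linarith
  have hq0 : 0 < q := by
    have : (0:ℝ) < 1 / d := by positivity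
    linarith
  refine ⟨7 * C, by positivity, ?_⟩
  intro N Ω _ P v b r hN hr hNr hv hsep
  set s : ℝ := q - 1/(d:ℝ) with hsdef
  set K : ℝ := (Fintype.card Ω : ℝ) with hK
  have hK0 : 0 ≤ K := by rw [hK]; positivity
  have hN0 : (0:ℝ) < N := by exact_mod_cast hN
  have hA0 : 0 ≤ C * (N:ℝ)^(-(d:ℝ)) := by positivity
  have hwin : ∀ w : ℤ, ∫⁻ z : ℝ × (Fin d → ℝ) in
      Set.Ico (w:ℝ) (w+1) ×ˢ (Set.univ : Set (Fin d → ℝ)),
      (∑ ω, (if (|z.1 - b ω| ≤ 3/2 ∧ ∀ k, |z.2 k - (P ω k + z.1 * v ω k)| ≤ r)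
        then (1:ℝ≥0∞) else 0)) ^ q ≤
      ENNReal.ofReal (C * (N:ℝ)^(-(d:ℝ)) * K^(s-1)) *
        ∑ ω : Ω, (if |⌊b ω⌋ - w| ≤ 3 then (1:ℝ≥0∞) else 0) := by
    intro w
    have h1 := hW N {ω : Ω // |⌊b ω⌋ - w| ≤ 3} (fun ω => P ω.1) (fun ω => v ω.1) (w:ℝ) r hN hr hNr
      (fun ω k => hv ω.1 k) (fun ω ω' hh => Subtype.ext (hsep ω.1 ω'.1 hh))
    have hcard : (Fintype.card {ω : Ω // |⌊b ω⌋ - w| ≤ 3} : ℝ) =
        ((Finset.univ.filter (fun ω : Ω => |⌊b ω⌋ - w| ≤ 3)).card : ℝ) := by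
      rw [Fintype.card_subtype]
    have h2 : ∫⁻ z : ℝ × (Fin d → ℝ) in
      Set.Ico (w:ℝ) (w+1) ×ˢ (Set.univ : Set (Fin d → ℝ)),
      (∑ ω, (if (|z.1 - b ω| ≤ 3/2 ∧ ∀ k, |z.2 k - (P ω k + z.1 * v ω k)| ≤ r)
        then (1:ℝ≥0∞) else 0)) ^ q ≤
      ∫⁻ z : ℝ × (Fin d → ℝ) in
      Set.Ico (w:ℝ) (w+1) ×ˢ (Set.univ : Set (Fin d → ℝ)),
      (∑ ω : {ω : Ω // |⌊b ω⌋ - w| ≤ 3}, (if (∀ k, |z.2 k - (P ω.1 k + z.1 * v ω.1 k)| ≤ r)
        then (1:ℝ≥0∞) else 0)) ^ q := by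
      apply setLIntegral_mono'
      · exact measurableSet_Ico.prod MeasurableSet.univ
      · intro z hz
        have hz1 : (w:ℝ) ≤ z.1 ∧ z.1 < w + 1 := by
          have := hz.1
          exact ⟨this.1, this.2⟩
        apply ENNReal.rpow_le_rpow _ hq0.le
        have e1 : ∑ ω : {ω : Ω // |⌊b ω⌋ - w| ≤ 3},
            (if (∀ k, |z.2 k - (P ω.1 k + z.1 * v ω.1 k)| ≤ r) then (1:ℝ≥0∞) else 0) =
            ∑ ω ∈ Finset.univ.filter (fun ω : Ω => |⌊b ω⌋ - w| ≤ 3),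
            (if (∀ k, |z.2 k - (P ω k + z.1 * v ω k)| ≤ r) then (1:ℝ≥0∞) else 0) := by
          rw [Finset.sum_subtype (Finset.univ.filter (fun ω : Ω => |⌊b ω⌋ - w| ≤ 3))
            (p := fun ω : Ω => |⌊b ω⌋ - w| ≤ 3) (fun x => by simp)]
        rw [e1, Finset.sum_filter]
        apply Finset.sum_le_sum
        intro ω _
        by_cases hc : |z.1 - b ω| ≤ 3/2 ∧ ∀ k, |z.2 k - (P ω k + z.1 * v ω k)| ≤ r
        · have hb := abs_le.1 hc.1
          have f1 := Int.floor_le (b ω)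
          have f2 := Int.lt_floor_add_one (b ω)
          have g1 : ((⌊b ω⌋ : ℤ) : ℝ) < ((w + 3 : ℤ) : ℝ) := by push_cast; linarith
          have g2 : ((w - 3 : ℤ) : ℝ) < ((⌊b ω⌋ : ℤ) : ℝ) := by push_cast; linarith
          have g1' : ⌊b ω⌋ < w + 3 := by exact_mod_cast g1
          have g2' : w - 3 < ⌊b ω⌋ := by exact_mod_cast g2
          have g3 : |⌊b ω⌋ - w| ≤ 3 := abs_le.2 ⟨by linarith, by linarith⟩
          rw [if_pos hc, if_pos g3, if_pos hc.2]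
        · rw [if_neg hc]
          exact bot_le
    refine h2.trans (h1.trans ?_)
    rw [hcard]
    set c : ℕ := (Finset.univ.filter (fun ω : Ω => |⌊b ω⌋ - w| ≤ 3)).card with hc
    have hcK : (c:ℝ) ≤ K := by
      rw [hK]; exact_mod_cast Finset.card_le_univ _
    have hsum : ∑ ω : Ω, (if |⌊b ω⌋ - w| ≤ 3 then (1:ℝ≥0∞) else 0) = (c : ℝ≥0∞) := by
      rw [← Finset.sum_filter, Finset.sum_const, hc]
      simp
    rw [hsum]
    have hc0 : (0:ℝ) ≤ c := Nat.cast_nonneg _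
    have e2 : (c : ℝ≥0∞) = ENNReal.ofReal (c:ℝ) := by simp
    rw [e2, ← ENNReal.ofReal_mul (by positivity)]
    apply ENNReal.ofReal_le_ofReal
    have e3 : (c:ℝ)^s ≤ K^(s-1) * c := by
      rcases hc0.eq_or_lt with h0 | h0
      · rw [← h0, Real.zero_rpow (by linarith)]; positivity
      · have : (c:ℝ)^s = (c:ℝ)^(s-1) * c := by
          rw [← Real.rpow_add_one h0.ne']; ring_nf
        rw [this]
        gcongr
    calc C * (N:ℝ)^(-(d:ℝ)) * (c:ℝ)^s ≤ C * (N:ℝ)^(-(d:ℝ)) * (K^(s-1) * c) := by gcongr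
      _ = C * (N:ℝ)^(-(d:ℝ)) * K^(s-1) * c := by ring
  -- sum over the windows
  set F : ℝ × (Fin d → ℝ) → ℝ≥0∞ := fun z =>
    (∑ ω, (if (|z.1 - b ω| ≤ 3/2 ∧ ∀ k, |z.2 k - (P ω k + z.1 * v ω k)| ≤ r)
        then (1:ℝ≥0∞) else 0)) ^ q with hF
  have hU : (⋃ w : ℤ, Set.Ico (w:ℝ) (w+1) ×ˢ (Set.univ : Set (Fin d → ℝ))) = Set.univ := by
    ext z
    simp only [Set.mem_iUnion, Set.mem_prod, Set.mem_Ico, Set.mem_univ, and_true, iff_true]
    exact ⟨⌊z.1⌋, Int.floor_le _, Int.lt_floor_add_one _⟩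
  have hdis : Pairwise (Function.onFun Disjoint
      (fun w : ℤ => Set.Ico (w:ℝ) (w+1) ×ˢ (Set.univ : Set (Fin d → ℝ)))) := by
    intro w w' hww
    rw [Function.onFun, Set.disjoint_left]
    rintro z ⟨⟨h1, h2⟩, _⟩ ⟨⟨h3, h4⟩, _⟩
    apply hww
    have a1 : ((w:ℤ):ℝ) < ((w' + 1 : ℤ) : ℝ) := by push_cast; linarith
    have a2 : ((w':ℤ):ℝ) < ((w + 1 : ℤ) : ℝ) := by push_cast; linarith
    have a1' : w < w' + 1 := by exact_mod_cast a1
    have a2' : w' < w + 1 := by exact_mod_cast a2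
    omega
  have hsplit : ∫⁻ z : ℝ × (Fin d → ℝ), F z = ∑' w : ℤ, ∫⁻ z in
      Set.Ico (w:ℝ) (w+1) ×ˢ (Set.univ : Set (Fin d → ℝ)), F z := by
    rw [← lintegral_iUnion (fun w => measurableSet_Ico.prod MeasurableSet.univ) hdis, hU,
      Measure.restrict_univ]
  change ∫⁻ z : ℝ × (Fin d → ℝ), F z ≤ _
  rw [hsplit]
  refine (ENNReal.tsum_le_tsum hwin).trans ?_
  rw [ENNReal.tsum_mul_left]
  have hcount : ∑' w : ℤ, ∑ ω : Ω, (if |⌊b ω⌋ - w| ≤ 3 then (1:ℝ≥0∞) else 0) ≤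
      ENNReal.ofReal (7 * K) := by
    rw [Summable.tsum_finsetSum (fun _ _ => ENNReal.summable)]
    have : ∀ ω : Ω, ∑' w : ℤ, (if |⌊b ω⌋ - w| ≤ 3 then (1:ℝ≥0∞) else 0) ≤ 7 := by
      intro ω
      rw [tsum_eq_sum (s := Finset.Icc (⌊b ω⌋ - 3) (⌊b ω⌋ + 3))]
      · refine (Finset.sum_le_sum (g := fun _ => (1:ℝ≥0∞)) ?_).trans ?_
        · intro w _
          split_ifs <;> simp
        · rw [Finset.sum_const, Int.card_Icc]
          have : (⌊b ω⌋ + 3 + 1 - (⌊b ω⌋ - 3)).toNat = 7 := by omega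
          rw [this]; norm_num
      · intro w hw
        rw [if_neg]
        intro hh
        apply hw
        rw [Finset.mem_Icc]
        have := abs_le.1 hh
        constructor <;> linarith [this.1, this.2]
    refine (Finset.sum_le_sum (fun ω _ => this ω)).trans ?_
    rw [Finset.sum_const, Finset.card_univ, hK, ENNReal.ofReal_mul (by norm_num),
      ENNReal.ofReal_natCast, nsmul_eq_mul, mul_comm]
    simp
  refine (mul_le_mul_right hcount _).trans ?_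
  rw [← ENNReal.ofReal_mul (by positivity)]
  apply ENNReal.ofReal_le_ofReal
  rcases hK0.eq_or_lt with h0 | h0
  · rw [← h0]; simp only [mul_zero]; positivity
  · have : K^s = K^(s-1) * K := by
      rw [← Real.rpow_add_one h0.ne']; ring_nf
    rw [this]
    apply le_of_eq; ring

/-- one class of directions -/
lemma one_class {d : ℕ} (hd : 1 ≤ d) {q : ℝ} (hq : 1 + 1 / (d : ℝ) ≤ q) (h : AllwP d q) :
    ∃ C : ℝ, 0 ≤ C ∧ ∀ δ : ℝ, 0 < δ → δ ≤ 1 → ∀ (ι : Type) [Fintype ι]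
    (a e : ι → EuclideanSpace ℝ (Fin (d + 1))) (m : Fin (d + 1)), (∀ i, ‖e i‖ = 1) →
    (∀ i k, |e i k| ≤ |e i m|) → (∀ i j, 0 < e i m * e j m) →
    (∀ i j, i ≠ j → δ ≤ ‖e i - e j‖) →
    ∫⁻ x, (∑ i, (tube δ (a i) (e i)).indicator (fun _ => (1 : ℝ≥0∞)) x) ^ q ≤
      ENNReal.ofReal (C * δ ^ (d : ℝ) * (Fintype.card ι : ℝ) ^ (q - 1 / (d : ℝ))) := by
  have hd1 : (0 : ℝ) < (d : ℝ) + 1 := by positivity
  have hd0 : (0 : ℝ) < (d : ℝ) := by
    have : 0 < d := by omega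
    exact_mod_cast this
  have hq0 : 0 ≤ q := by
    have : 0 ≤ 1 / (d : ℝ) := by positivity
    linarith
  obtain ⟨C, hC, hmain⟩ := h (8 * (d + 1) + 2) (by positivity)
  refine ⟨C, hC, ?_⟩
  intro δ hδ hδ1 ι _ a e m he hmax hsgn hsep
  have hem : ∀ i, e i m ≠ 0 := by
    intro i h0
    have := hsgn i i
    rw [h0, mul_zero] at this
    exact lt_irrefl _ this
  set N : ℕ := ⌈4 * (d + 1) / δ⌉₊ with hN
  have hNlow : 4 * (d + 1) / δ ≤ N := Nat.le_ceil _
  have hNup : (N : ℝ) < 4 * (d + 1) / δ + 1 := Nat.ceil_lt_add_one (by positivity)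
  have hNpos : (0 : ℝ) < N := lt_of_lt_of_le (by positivity) hNlow
  have hN1 : 1 ≤ N := by exact_mod_cast hNpos
  have hNr : (N : ℝ) * (2 * δ) ≤ 8 * (d + 1) + 2 := by
    have h1 : (N : ℝ) * (2 * δ) ≤ (4 * (d + 1) / δ + 1) * (2 * δ) :=
      mul_le_mul_of_nonneg_right hNup.le (by positivity)
    have h2 : (4 * ((d : ℝ) + 1) / δ + 1) * (2 * δ) = 8 * (d + 1) + 2 * δ := by
      field_simp
      ring
    rw [h2] at h1
    linarith
  have h1 := hmain N ι (fun i k => a i (m.succAbove k) - a i m * (e i (m.succAbove k) / e i m))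
    (fun i k => e i (m.succAbove k) / e i m) (fun i => a i m) (2 * δ) hN1 (by positivity) hNr
    (by
      intro i k
      rw [abs_div, div_le_one (abs_pos.2 (hem i))]
      exact hmax i _)
    (by
      intro i j hij
      by_contra hne
      obtain ⟨k, hk⟩ := slope_sep hδ m (e i) (e j) (he i) (he j) (hsgn i j) (hsep i j hne)
      refine Pool.Agent.W605.HM.floor_ne ?_ (hij k)
      have h2 : (N : ℝ) * ((e i (m.succAbove k) / e i m + 1) / 2) -
          N * ((e j (m.succAbove k) / e j m + 1) / 2) =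
          N / 2 * (e i (m.succAbove k) / e i m - e j (m.succAbove k) / e j m) := by ring
      rw [h2, abs_mul, abs_of_pos (by positivity : (0 : ℝ) < N / 2)]
      calc (1 : ℝ) = (4 * (d + 1) / δ) / 2 * (δ / (2 * (d + 1))) := by
            field_simp
            norm_num
        _ ≤ N / 2 * |e i (m.succAbove k) / e i m - e j (m.succAbove k) / e j m| := by
            refine mul_le_mul ?_ hk (by positivity) (by positivity)
            exact div_le_div_of_nonneg_right hNlow (by norm_num))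
  have h2 : ∫⁻ x, (∑ i, (tube δ (a i) (e i)).indicator (fun _ => (1 : ℝ≥0∞)) x) ^ q =
      ∫⁻ z, (∑ i, (tube δ (a i) (e i)).indicator (fun _ => (1 : ℝ≥0∞))
        ((eqvj d m).symm z)) ^ q :=
    (((eqvj_mp d m).symm (eqvj d m)).lintegral_comp_emb
      (eqvj d m).symm.measurableEmbedding
      (fun x => (∑ i, (tube δ (a i) (e i)).indicator (fun _ => (1 : ℝ≥0∞)) x) ^ q)).symm
  rw [h2]
  refine (lintegral_mono fun z => ?_).trans (h1.trans ?_)
  · refine ENNReal.rpow_le_rpow (Finset.sum_le_sum fun i _ => ?_) hq0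
    obtain ⟨t, y⟩ := z
    by_cases hz : (eqvj d m).symm (t, y) ∈ tube δ (a i) (e i)
    · have h3 := Pool.Agent.W605.HM.tube_coord hδ1 m (a i) (e i) (he i) (hem i) (hmax i) t y hz
      rw [Set.indicator_of_mem hz, if_pos h3]
    · rw [Set.indicator_of_notMem hz]
      exact zero_le
  · apply ENNReal.ofReal_le_ofReal
    have h3 : (N : ℝ) ^ (-(d : ℝ)) ≤ δ ^ (d : ℝ) := by
      have h4 : (δ⁻¹ : ℝ) ≤ N := by
        refine le_trans ?_ hNlow
        rw [inv_eq_one_div]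
        refine div_le_div_of_nonneg_right ?_ hδ.le
        linarith
      calc (N : ℝ) ^ (-(d : ℝ)) ≤ (δ⁻¹) ^ (-(d : ℝ)) :=
            Real.rpow_le_rpow_of_nonpos (by positivity) h4 (by linarith)
        _ = δ ^ (d : ℝ) := by
            rw [Real.inv_rpow hδ.le, Real.rpow_neg hδ.le, inv_inv]
    exact mul_le_mul_of_nonneg_right (mul_le_mul_of_nonneg_left h3 hC)
      (Real.rpow_nonneg (Nat.cast_nonneg _) _)

/-- HM-TUBEQ -/
theorem tubeP {d : ℕ} (hd : 1 ≤ d) {q : ℝ} (hq : 1 + 1 / (d : ℝ) ≤ q) (h : AllwP d q) :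
    TubeP d q := by
  obtain ⟨C, hC, hone⟩ := one_class hd hq h
  have hd0 : (0 : ℝ) < (d : ℝ) := by
    have : 0 < d := by omega
    exact_mod_cast this
  have hq1 : 1 ≤ q := by
    have : 0 ≤ 1 / (d : ℝ) := by positivity
    linarith
  have hex : 0 ≤ q - 1 / (d : ℝ) := by
    have h1 : 1 / (d : ℝ) ≤ 1 := by
      rw [div_le_one hd0]
      have : 1 ≤ d := by omega
      exact_mod_cast this
    linarith
  set K : ℕ := Fintype.card (Fin (d + 1) × Bool) with hK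
  refine ⟨(K : ℝ) ^ (q - 1) * K * C + 1, by positivity, ?_⟩
  intro δ hδ hδ1 ι _ a e he hsep
  -- the largest coordinate
  have hmax : ∀ i : ι, ∃ m : Fin (d + 1), ∀ k, |e i k| ≤ |e i m| := by
    intro i
    exact (Finite.exists_max fun k => |e i k|)
  choose M hM using hmax
  have hne0 : ∀ i, e i (M i) ≠ 0 := by
    intro i h0
    have h1 : e i = 0 := by
      ext k
      have h2 := hM i k
      rw [h0, abs_zero] at h2
      exact abs_eq_zero.1 (le_antisymm h2 (abs_nonneg _))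
    have h2 := he i
    rw [h1, norm_zero] at h2
    exact zero_ne_one h2
  set cls : ι → Fin (d + 1) × Bool := fun i => (M i, decide (0 < e i (M i))) with hcls
  have hclass : ∀ c : Fin (d + 1) × Bool,
      ∫⁻ x, (∑ i : {i // cls i = c}, (tube δ (a i) (e i)).indicator
        (fun _ => (1 : ℝ≥0∞)) x) ^ q ≤
        ENNReal.ofReal (C * δ ^ (d : ℝ) * (Fintype.card ι : ℝ) ^ (q - 1 / (d : ℝ))) := by
    intro c
    obtain ⟨m, sg⟩ := c
    have hmem : ∀ i : {i // cls i = (m, sg)}, M i = m ∧ decide (0 < e i (M i)) = sg := by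
      intro i
      have := i.2
      simp only [hcls, Prod.mk.injEq] at this
      exact this
    have h1 := hone δ hδ hδ1 {i // cls i = (m, sg)} (fun i => a i) (fun i => e i) m
      (fun i => he i)
      (by
        intro i k
        have := hM i k
        rwa [(hmem i).1] at this)
      (by
        intro i j
        have h1 := (hmem i).2
        have h2 := (hmem j).2
        have h4 := hne0 i
        have h5 := hne0 j
        rw [(hmem i).1] at h1 h4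
        rw [(hmem j).1] at h2 h5
        have h3 : (0 < e i m) ↔ (0 < e j m) := by
          rw [← decide_eq_decide, h1, h2]
        rcases lt_or_gt_of_ne h4 with h6 | h6
        · have h7 : e j m < 0 := by
            rcases lt_or_gt_of_ne h5 with h7 | h7
            · exact h7
            · exact absurd (h3.mpr h7) (not_lt.mpr h6.le)
          exact mul_pos_of_neg_of_neg h6 h7
        · exact mul_pos h6 (h3.mp h6))
      (fun i j hij => hsep i j fun h => hij (Subtype.ext h))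
    refine h1.trans (ENNReal.ofReal_le_ofReal ?_)
    refine mul_le_mul_of_nonneg_left ?_ (mul_nonneg hC (Real.rpow_nonneg hδ.le _))
    refine Real.rpow_le_rpow (Nat.cast_nonneg _) ?_ hex
    exact_mod_cast Fintype.card_subtype_le _
  have hmeas : ∀ c : Fin (d + 1) × Bool, Measurable fun x =>
      (∑ i : {i // cls i = c}, (tube δ (a i) (e i)).indicator (fun _ => (1 : ℝ≥0∞)) x) ^ q := by
    intro c
    refine Measurable.pow_const (Finset.measurable_sum _ fun i _ => ?_) q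
    exact measurable_const.indicator (tube_isClosed _ _ _).measurableSet
  calc ∫⁻ x, (∑ i, (tube δ (a i) (e i)).indicator (fun _ => (1 : ℝ≥0∞)) x) ^ q
      ≤ ∫⁻ x, (K : ℝ≥0∞) ^ (q - 1) * ∑ c : Fin (d + 1) × Bool,
        (∑ i : {i // cls i = c}, (tube δ (a i) (e i)).indicator
          (fun _ => (1 : ℝ≥0∞)) x) ^ q := by
        refine lintegral_mono fun x => ?_
        rw [← Fintype.sum_fiberwise cls
          (fun i => (tube δ (a i) (e i)).indicator (fun _ => (1 : ℝ≥0∞)) x)]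
        have h1 := ENNReal.rpow_sum_le_const_mul_sum_rpow (Finset.univ : Finset (Fin (d + 1) × Bool))
          (fun c => ∑ i : {i // cls i = c}, (tube δ (a i) (e i)).indicator
            (fun _ => (1 : ℝ≥0∞)) x) hq1
        exact h1
    _ = (K : ℝ≥0∞) ^ (q - 1) * ∑ c : Fin (d + 1) × Bool, ∫⁻ x,
        (∑ i : {i // cls i = c}, (tube δ (a i) (e i)).indicator
          (fun _ => (1 : ℝ≥0∞)) x) ^ q := by
        rw [lintegral_const_mul' _ _ (ENNReal.rpow_ne_top_of_nonneg (by linarith)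
          (ENNReal.natCast_ne_top K)), lintegral_finsetSum _ fun c _ => hmeas c]
    _ ≤ (K : ℝ≥0∞) ^ (q - 1) * ∑ _c : Fin (d + 1) × Bool,
        ENNReal.ofReal (C * δ ^ (d : ℝ) * (Fintype.card ι : ℝ) ^ (q - 1 / (d : ℝ))) :=
        mul_le_mul_right (Finset.sum_le_sum fun c _ => hclass c) _
    _ = ENNReal.ofReal ((K : ℝ) ^ (q - 1) * (K * (C * δ ^ (d : ℝ) *
          (Fintype.card ι : ℝ) ^ (q - 1 / (d : ℝ))))) := by
        rw [Finset.sum_const, Finset.card_univ, ← hK, nsmul_eq_mul]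
        generalize C * δ ^ (d : ℝ) * (Fintype.card ι : ℝ) ^ (q - 1 / (d : ℝ)) = X
        rw [ENNReal.ofReal_mul (Real.rpow_nonneg (Nat.cast_nonneg K) _),
          ENNReal.ofReal_mul (Nat.cast_nonneg K), ENNReal.ofReal_natCast,
          ← ENNReal.ofReal_rpow_of_nonneg (Nat.cast_nonneg K) (by linarith),
          ENNReal.ofReal_natCast]
    _ ≤ ENNReal.ofReal (((K : ℝ) ^ (q - 1) * K * C + 1) * δ ^ (d : ℝ) *
          (Fintype.card ι : ℝ) ^ (q - 1 / (d : ℝ))) := by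
        apply ENNReal.ofReal_le_ofReal
        have h1 : 0 ≤ δ ^ (d : ℝ) * (Fintype.card ι : ℝ) ^ (q - 1 / (d : ℝ)) := by positivity
        nlinarith

theorem weakP {d : ℕ} (hd : 1 ≤ d) {c : ℝ} (hc0 : 0 < c) (h : TubeP d (1 + c / d))
    (hC : S_CAP) (hV : S_VOL) : WeakP d c := by
  have hd0 : 0 < d := by omega
  have hdR : (0 : ℝ) < d := by exact_mod_cast hd0
  set q : ℝ := 1 + c / d with hq
  set p : ℝ := 1 + d / c with hp
  have hp0 : 0 < p := by positivity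
  have hq0 : 0 < q := by positivity
  have hpq : p.HolderConjugate q := by
    rw [Real.holderConjugate_iff]
    refine ⟨?_, ?_⟩
    · rw [hp]
      have : 0 < (d : ℝ) / c := by positivity
      linarith
    · rw [hp, hq]
      field_simp
      ring
  obtain ⟨C0, hC0, hT⟩ := h
  obtain ⟨C1, hC1, hcap⟩ := hC d
  obtain ⟨κ, hκ, hvol⟩ := hV d
  refine ⟨C1 * (C0 ^ (d : ℝ) * κ ^ (-((d : ℝ) + c))), by positivity,
    fun δ hδ hδ1 f hf l hl => ?_⟩
  set A : ℝ≥0∞ := ∫⁻ y, f y ^ p with hA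
  set E : Set (Metric.sphere (0 : EuclideanSpace ℝ (Fin (d + 1))) 1) :=
    {e | ENNReal.ofReal l < kmax δ f (e : EuclideanSpace ℝ (Fin (d + 1)))} with hE
  set D : ℝ := C1 * (C0 ^ (d : ℝ) * κ ^ (-((d : ℝ) + c))) * δ ^ (-((c - 1) * (d : ℝ))) *
    l ^ (-((d : ℝ) + c)) with hD
  have hD0 : 0 < D := by positivity
  by_cases hAtop : A = ⊤
  · rw [hAtop, ENNReal.top_rpow_of_pos hc0, ENNReal.mul_top (ENNReal.ofReal_pos.2 hD0).ne']
    exact le_top
  obtain ⟨I, hIE, hIsep, hIcov⟩ := Pool.Agent.W101.HM.exists_net E hδ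
  have hmeas : (volume : Measure (EuclideanSpace ℝ (Fin (d + 1)))).toSphere E ≤
      ENNReal.ofReal ((I.card : ℝ) * (C1 * δ ^ d)) := by
    refine (measure_mono hIcov).trans ((measure_biUnion_finset_le I _).trans ?_)
    refine (Finset.sum_le_sum fun e _ => hcap e δ hδ hδ1.le).trans ?_
    rw [Finset.sum_const, nsmul_eq_mul, ENNReal.ofReal_mul (Nat.cast_nonneg _),
      ENNReal.ofReal_natCast]
  refine hmeas.trans ?_
  rcases I.eq_empty_or_nonempty with hI | hI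
  · rw [hI]
    simp
  have hM : 0 < I.card := hI.card_pos
  -- the tubes
  have hch : ∀ e : {x // x ∈ I}, ∃ a : EuclideanSpace ℝ (Fin (d + 1)),
      ENNReal.ofReal (l * (κ * δ ^ d)) ≤
        ∫⁻ y in tube δ a ((e : Metric.sphere (0 : EuclideanSpace ℝ (Fin (d + 1))) 1) :
          EuclideanSpace ℝ (Fin (d + 1))), f y := by
    intro e
    have h1 : ENNReal.ofReal l < kmax δ f ((e : Metric.sphere
      (0 : EuclideanSpace ℝ (Fin (d + 1))) 1) : EuclideanSpace ℝ (Fin (d + 1))) := hIE e e.2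
    rw [kmax, lt_iSup_iff] at h1
    obtain ⟨a, ha⟩ := h1
    refine ⟨a, ?_⟩
    have he : ‖((e : Metric.sphere (0 : EuclideanSpace ℝ (Fin (d + 1))) 1) :
        EuclideanSpace ℝ (Fin (d + 1)))‖ = 1 := by
      simp
    obtain ⟨hv1, hv2⟩ := hvol a _ δ he hδ hδ1.le
    have hv0 : volume (tube δ a ((e : Metric.sphere (0 : EuclideanSpace ℝ (Fin (d + 1))) 1) :
        EuclideanSpace ℝ (Fin (d + 1)))) ≠ 0 := by
      have : 0 < ENNReal.ofReal (κ * δ ^ d) := ENNReal.ofReal_pos.2 (by positivity)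
      exact (this.trans_le hv1).ne'
    rw [ENNReal.ofReal_mul hl.le]
    calc ENNReal.ofReal l * ENNReal.ofReal (κ * δ ^ d)
        ≤ ENNReal.ofReal l * volume (tube δ a ((e : Metric.sphere
            (0 : EuclideanSpace ℝ (Fin (d + 1))) 1) : EuclideanSpace ℝ (Fin (d + 1)))) := by
          gcongr
      _ ≤ ((volume (tube δ a ((e : Metric.sphere
            (0 : EuclideanSpace ℝ (Fin (d + 1))) 1) : EuclideanSpace ℝ (Fin (d + 1)))))⁻¹ *
            ∫⁻ y in tube δ a ((e : Metric.sphere (0 : EuclideanSpace ℝ (Fin (d + 1))) 1) :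
              EuclideanSpace ℝ (Fin (d + 1))), f y) * volume (tube δ a ((e : Metric.sphere
            (0 : EuclideanSpace ℝ (Fin (d + 1))) 1) : EuclideanSpace ℝ (Fin (d + 1)))) := by
          gcongr
      _ = _ := by
          rw [mul_right_comm, ENNReal.inv_mul_cancel hv0 hv2, one_mul]
  choose a ha using hch
  set g : EuclideanSpace ℝ (Fin (d + 1)) → ℝ≥0∞ := fun x => ∑ i : {x // x ∈ I},
    (tube δ (a i) ((i : Metric.sphere (0 : EuclideanSpace ℝ (Fin (d + 1))) 1) :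
      EuclideanSpace ℝ (Fin (d + 1)))).indicator (fun _ => (1 : ℝ≥0∞)) x with hg
  have hTm : ∀ i : {x // x ∈ I}, MeasurableSet (tube δ (a i) ((i : Metric.sphere
      (0 : EuclideanSpace ℝ (Fin (d + 1))) 1) : EuclideanSpace ℝ (Fin (d + 1)))) :=
    fun i => (tube_isClosed _ _ _).measurableSet
  have hgm : Measurable g :=
    Finset.measurable_sum _ fun i _ => measurable_const.indicator (hTm i)
  have hT' := hT δ hδ hδ1.le {x // x ∈ I} a
    (fun i => ((i : Metric.sphere (0 : EuclideanSpace ℝ (Fin (d + 1))) 1) :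
      EuclideanSpace ℝ (Fin (d + 1))))
    (fun i => by simp)
    (fun i j hij => by
      have h1 := hIsep i i.2 j j.2 (fun hh => hij (Subtype.ext hh))
      rwa [Subtype.dist_eq, dist_eq_norm] at h1)
  rw [Fintype.card_coe] at hT'
  have hsum : ∑ i : {x // x ∈ I}, ∫⁻ y in tube δ (a i) ((i : Metric.sphere
      (0 : EuclideanSpace ℝ (Fin (d + 1))) 1) : EuclideanSpace ℝ (Fin (d + 1))), f y =
      ∫⁻ y, (f * g) y := by
    have e1 : ∀ y, (f * g) y = ∑ i : {x // x ∈ I}, (tube δ (a i) ((i : Metric.sphere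
      (0 : EuclideanSpace ℝ (Fin (d + 1))) 1) : EuclideanSpace ℝ (Fin (d + 1)))).indicator f y := by
      intro y
      rw [Pi.mul_apply, hg, Finset.mul_sum]
      refine Finset.sum_congr rfl fun i _ => ?_
      by_cases hy : y ∈ tube δ (a i) ((i : Metric.sphere
        (0 : EuclideanSpace ℝ (Fin (d + 1))) 1) : EuclideanSpace ℝ (Fin (d + 1)))
      · simp [hy]
      · simp [hy]
    simp_rw [e1]
    rw [lintegral_finsetSum' _ fun i _ => hf.indicator (hTm i)]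
    exact Finset.sum_congr rfl fun i _ => (lintegral_indicator (hTm i) _).symm
  have hlow : ENNReal.ofReal ((I.card : ℝ) * (l * (κ * δ ^ d))) ≤ ∫⁻ y, (f * g) y := by
    rw [← hsum, ENNReal.ofReal_mul (Nat.cast_nonneg _), ENNReal.ofReal_natCast]
    have : ∑ i : {x // x ∈ I}, ENNReal.ofReal (l * (κ * δ ^ d)) =
        (I.card : ℝ≥0∞) * ENNReal.ofReal (l * (κ * δ ^ d)) := by
      rw [Finset.sum_const, nsmul_eq_mul, Finset.card_univ, Fintype.card_coe]
    rw [← this]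
    exact Finset.sum_le_sum fun i _ => ha i
  have hHol := ENNReal.lintegral_mul_le_Lp_mul_Lq volume hpq hf hgm.aemeasurable
  obtain ⟨a', ha'0, hAa⟩ : ∃ a' : ℝ, 0 ≤ a' ∧ A = ENNReal.ofReal a' :=
    ⟨A.toReal, ENNReal.toReal_nonneg, (ENNReal.ofReal_toReal hAtop).symm⟩
  have hreal : (I.card : ℝ) * (l * (κ * δ ^ d)) ≤
      a' ^ (1 / p) * (C0 * δ ^ (d : ℝ) * (I.card : ℝ) ^ (q - 1 / (d : ℝ))) ^ (1 / q) := by
    have hB : 0 ≤ C0 * δ ^ (d : ℝ) * (I.card : ℝ) ^ (q - 1 / (d : ℝ)) := by positivity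
    have h1 : ENNReal.ofReal ((I.card : ℝ) * (l * (κ * δ ^ d))) ≤
        ENNReal.ofReal (a' ^ (1 / p) *
          (C0 * δ ^ (d : ℝ) * (I.card : ℝ) ^ (q - 1 / (d : ℝ))) ^ (1 / q)) := by
      rw [ENNReal.ofReal_mul (p := a' ^ (1 / p)) (by positivity),
        ← ENNReal.ofReal_rpow_of_nonneg ha'0 (by positivity),
        ← ENNReal.ofReal_rpow_of_nonneg hB (by positivity), ← hAa]
      refine (hlow.trans hHol).trans ?_
      gcongr
    exact (ENNReal.ofReal_le_ofReal_iff (by positivity)).1 h1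
  have hfin := Pool.Agent.W101.HM.real_alg hd0 hM hc0 hC0 hκ hl hδ ha'0 hp hq hreal
  rw [hAa, ENNReal.ofReal_rpow_of_nonneg ha'0 hc0.le, ← ENNReal.ofReal_mul hD0.le]
  refine ENNReal.ofReal_le_ofReal ?_
  have h5 : (I.card : ℝ) * (C1 * δ ^ d) ≤ (C0 ^ (d : ℝ) * κ ^ (-((d : ℝ) + c)) * a' ^ c *
      l ^ (-((d : ℝ) + c)) * δ ^ (-((d : ℝ) * c))) * (C1 * δ ^ d) := by
    gcongr
  refine h5.trans_eq ?_
  have e5 : δ ^ (-((c - 1) * (d : ℝ))) = δ ^ (-((d : ℝ) * c)) * δ ^ d := by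
    rw [← Real.rpow_natCast δ d, ← Real.rpow_add hδ]
    congr 1
    ring
  rw [hD, e5]
  ring

theorem strongP {d : ℕ} (hd : 1 ≤ d) {c : ℝ} (hc1 : 1 < c) (h : WeakP d c) : StrongP d c := by
  obtain ⟨C, hC, hw⟩ := h
  have hc0 : 0 < c := by linarith
  have hd0 : (1 : ℝ) ≤ d := by exact_mod_cast hd
  have hpc : (1 + (d : ℝ) / c) * c = (d : ℝ) + c := by field_simp; ring
  have hp : 0 < 1 + (d : ℝ) / c := by positivity
  have hpr : 1 + (d : ℝ) / c < (d : ℝ) + c := by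
    have h1 : (d : ℝ) / c ≤ d := div_le_self (by linarith) hc1.le
    linarith
  have hr : 0 < (d : ℝ) + c := by positivity
  have hratio : (1 + (d : ℝ) / c) / ((d : ℝ) + c) = 1 / c := by
    rw [← hpc]; field_simp
  obtain ⟨M, hM⟩ : ∃ M : ℝ≥0∞, M = (volume : Measure (EuclideanSpace ℝ (Fin (d + 1)))).toSphere Set.univ +
      ENNReal.ofReal (2 ^ (1 + (d : ℝ) / c)) *
        (1 - ENNReal.ofReal (2 ^ (-(((d : ℝ) + c) - (1 + (d : ℝ) / c)))))⁻¹ := ⟨_, rfl⟩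
  have hMt : M ≠ ⊤ := by
    rw [hM]
    refine ENNReal.add_ne_top.mpr ⟨measure_ne_top _ _, ENNReal.mul_ne_top ENNReal.ofReal_ne_top ?_⟩
    rw [ENNReal.inv_ne_top]
    refine (tsub_pos_of_lt ?_).ne'
    rw [← ENNReal.ofReal_one]
    refine (ENNReal.ofReal_lt_ofReal_iff one_pos).mpr ?_
    exact Real.rpow_lt_one_of_one_lt_of_neg (by norm_num) (by linarith)
  refine ⟨C ^ (1 / c) * (M.toReal + 1), by positivity, ?_⟩
  intro δ hδ hδ1 f hf
  have key := Pool.Agent.W902.HM.weak_strong (volume : Measure (EuclideanSpace ℝ (Fin (d + 1)))).toSphere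
    (fun e : Metric.sphere (0 : EuclideanSpace ℝ (Fin (d + 1))) 1 =>
      kmax δ f (e : EuclideanSpace ℝ (Fin (d + 1))))
    (ENNReal.ofReal (C * δ ^ (-((c - 1) * (d : ℝ)))) * (∫⁻ y, f y ^ (1 + (d : ℝ) / c)) ^ c)
    (1 + (d : ℝ) / c) ((d : ℝ) + c) hp hpr (by
      intro l hl
      refine (hw δ hδ hδ1 f hf l hl).trans (le_of_eq ?_)
      rw [ENNReal.ofReal_mul (by positivity : 0 ≤ C * δ ^ (-((c - 1) * (d : ℝ))))]
      ring)
  rw [← hM, hratio] at key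
  refine key.trans ?_
  have e1 : (ENNReal.ofReal (C * δ ^ (-((c - 1) * (d : ℝ)))) *
      (∫⁻ y, f y ^ (1 + (d : ℝ) / c)) ^ c) ^ (1 / c) =
      ENNReal.ofReal (C ^ (1 / c) * δ ^ (-((d : ℝ) - (d : ℝ) / c))) *
        ∫⁻ y, f y ^ (1 + (d : ℝ) / c) := by
    rw [ENNReal.mul_rpow_of_nonneg _ _ (by positivity), ← ENNReal.rpow_mul,
      mul_one_div_cancel hc0.ne', ENNReal.rpow_one,
      ENNReal.ofReal_rpow_of_pos (by positivity), Real.mul_rpow hC.le (by positivity),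
      ← Real.rpow_mul hδ.le]
    congr 4
    field_simp
  rw [e1]
  have e2 : M ≤ ENNReal.ofReal (M.toReal + 1) := by
    calc M = ENNReal.ofReal M.toReal := (ENNReal.ofReal_toReal hMt).symm
      _ ≤ _ := ENNReal.ofReal_le_ofReal (by linarith)
  calc ENNReal.ofReal (C ^ (1 / c) * δ ^ (-((d : ℝ) - (d : ℝ) / c))) *
        (∫⁻ y, f y ^ (1 + (d : ℝ) / c)) * M
      ≤ ENNReal.ofReal (C ^ (1 / c) * δ ^ (-((d : ℝ) - (d : ℝ) / c))) *
        (∫⁻ y, f y ^ (1 + (d : ℝ) / c)) * ENNReal.ofReal (M.toReal + 1) := by gcongr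
    _ = ENNReal.ofReal (C ^ (1 / c) * (M.toReal + 1) * δ ^ (-((d : ℝ) - (d : ℝ) / c))) *
        ∫⁻ y, f y ^ (1 + (d : ℝ) / c) := by
      rw [mul_right_comm, ← ENNReal.ofReal_mul (by positivity)]
      congr 2
      ring


/-- The whole pipeline. -/
theorem pipe {d : ℕ} (hd : 1 ≤ d) {b c : ℝ} (hb : 1 ≤ b) (hbc : b < c) (h : AllS d b)
    (hC : S_CAP) (hV : S_VOL) : WeakP d c ∧ StrongP d c := by
  have hd0 : (0 : ℝ) < d := by exact_mod_cast hd
  have h1 : LevP d ((b + c) / 2) := levP hd hb (by linarith) h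
  have hc1 : 1 < c := by linarith
  have hq : 1 + 1 / (d : ℝ) ≤ 1 + c / d := by
    have : 1 / (d : ℝ) ≤ c / d := div_le_div_of_nonneg_right hc1.le hd0.le
    linarith
  have hq1 : 1 < 1 + c / (d : ℝ) := by
    have : 0 < c / (d : ℝ) := div_pos (by linarith) hd0
    linarith
  have h2 : MomP d (1 + c / d) := momP hd (by linarith) (by linarith : (b + c) / 2 < c) le_rfl h1
  have h3 := tubeP hd hq (allwP hd hq (winP hd hq1 h2))
  have h4 := weakP hd (by linarith) h3 hC hV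
  exact ⟨h4, strongP hd hc1 h4⟩

end Pool.Agent.Y244.HM
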