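import Pool.Agent.Y244.HM.Stm
import Pool.Agent.W976.HD.Iter

set_option autoImplicit false

open Finset
open scoped Classical

namespace Pool.Agent.Y244.HM
open Pool.Agent.W904.AK Pool.Agent.W46.HD Pool.Agent.W46.HM

/-- The arithmetic of the step. -/
theorem step_alg (b G a h L S pp ph w w' c1 c2 : ℝ) (hb : 1 < b) (hG : 0 ≤ G)
    (hc : pp ≤ 2 * h)
    (u1 : 2 * a - h + (b - 1) * ph ≤ b * pp + (b + G - 1) * w + 5 * L + c1 * (1 + S))
    (u2 : w ≤ 2 * L + c1 * (1 + S))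
    (k1 : w + w' ≤ 3 * L + c2 * (1 + S))
    (k2 : 3 * a - 2 * h + (b - 1) * (a + pp - 2 * h) ≤
      b * (h + ph) + G * w' - b * w + (4 * b + 4) * L + c2 * (1 + S)) :
    a * (b ^ 2 + 3 * b - 2) ≤ (3 * b ^ 2 + 2 * b - 2) * h +
      (4 * b ^ 2 + 5 * b - 4 + (3 * b - 1) * G) * L +
      ((b + G) * c1 + ((b - 1) + (b - 1) * G) * c2) * (1 + S) := by
  have e1 := mul_le_mul_of_nonneg_left u1 (by linarith : 0 ≤ b)
  have e2 := mul_le_mul_of_nonneg_left u2 hG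
  have e3 := mul_le_mul_of_nonneg_left k1 (mul_nonneg (by linarith : 0 ≤ b - 1) hG)
  have e4 := mul_le_mul_of_nonneg_left k2 (by linarith : 0 ≤ b - 1)
  have e5 := mul_le_mul_of_nonneg_left hc (by linarith : 0 ≤ 2 * b - 1)
  nlinarith

theorem STEPM (hUP : S_UPM) (hKT : S_KTM) (hCFG : S_CFGT) : S_STEPM := by
  intro d b G hb hG hall
  obtain ⟨C, hC, hO⟩ := hall
  obtain ⟨C1, hC1, h1⟩ := hUP d b G C hb hG hC
  obtain ⟨C2, hC2, h2⟩ := hKT d b G C hb hG hC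
  have hD : 0 < b ^ 2 + 3 * b - 2 := by nlinarith
  have hb1 : 0 ≤ b - 1 := by linarith
  refine ⟨((b + G) * C1 + ((b - 1) + (b - 1) * G) * C2) / (b ^ 2 + 3 * b - 2), by positivity, ?_⟩
  intro n Ω _ A D hF p hp
  obtain ⟨Θ, _, q, l1, l2, l3, s0, s1, t, t', τ, v, hc⟩ := hCFG Ω d n A D p hF.pos hp
  obtain ⟨u1, u2⟩ := h1 n Ω A D hF (hO n Ω A D hF) p hp Θ q l1 l2 l3 s0 s1 t t' τ v hc
  obtain ⟨w', k1, k2⟩ := h2 n Ω A D hF (hO n Ω A D hF) p hp Θ q l1 l2 l3 s0 s1 t t' τ v hc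
  rw [hc.pp] at k2
  have k3 := Pool.Agent.W976.HD.pair_le hc.law s0 t t' (fun z => cell A D (t z) (l1 z))
    (fun z => cell A D (t' z) (l3 z))
  have k4 : H q (fun z => (s0 z, t z, t' z, cell A D (t z) (l1 z), cell A D (t' z) (l3 z))) -
      H q (fun z => (s0 z, t z, t' z)) ≤ 2 * hh A D p := by
    have e1 := hc.ht
    have e2 := hc.ht'
    linarith
  have k5 := step_alg b G (aa p) (hh A D p) (lam p) (sep p) _ _ _ w' C1 C2 hb hG k4 u1 u2 k1 k2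
  have k6 : aa p ≤ ((3 * b ^ 2 + 2 * b - 2) * hh A D p +
      (4 * b ^ 2 + 5 * b - 4 + (3 * b - 1) * G) * lam p +
      ((b + G) * C1 + ((b - 1) + (b - 1) * G) * C2) * (1 + sep p)) / (b ^ 2 + 3 * b - 2) := by
    rw [le_div_iff₀ hD]
    exact k5
  refine k6.trans (le_of_eq ?_)
  ring

end Pool.Agent.Y244.HM
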