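import Pool.Agent.W369.HM.TOG
import Pool.Agent.W349.HM.ITER
import Pool.Agent.Y244.HM.Step

/-! # The general oracle from the two-ends oracle, and the iteration -/

set_option autoImplicit false
set_option linter.unusedSectionVars false
set_option linter.unusedVariables false

open Finset
open scoped Classical

namespace Pool.Agent.Y244.HM
open Pool.Agent.W904.AK Pool.Agent.W46.HD Pool.Agent.W46.HM Pool.Agent.W369.HM

theorem TOM (hTE : S_TE) (hLOC : S_LOC) (hHJ : S_HJ) (hCOST : S_COST) : S_TOM := by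
  intro d b G ε hb0 h0 h1 hG hT
  have hε : 0 < 1 - ε := by linarith
  set g : ℝ := max G ((d + ε) / (1 - ε)) with hg
  have hg1 : G ≤ g := le_max_left _ _
  have hg0 : 0 ≤ g := hG.trans hg1
  have hg2 : (d : ℝ) + ε ≤ g * (1 - ε) := by
    have := le_max_right G ((d + ε) / (1 - ε))
    rw [← hg, div_le_iff₀ hε] at this
    exact this
  obtain ⟨C0, hC0, hT⟩ := hT
  obtain ⟨B, hB, hlevs⟩ := exists_lev hTE h0 h1
  obtain ⟨CJ, hCJ, hJ⟩ := hHJ ε h0
  refine ⟨g * (B + 1) + CJ + 2 * d + C0 * (1 + B), by positivity, ?_⟩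
  intro n Ω _ A D hfam p hp
  have hn0 : (0 : ℝ) < n := by exact_mod_cast hfam.pos
  obtain ⟨lev, hl1, hl2, hl3⟩ := hlevs n Ω hfam.pos p hp
  have hloc := hLOC d b G C0 hC0 hT n Ω A D hfam p hp lev B hB hl2
  have hcol := H_QQ_le hCOST hp D lev hfam.pos hl1
  have hid := H_id_le hCOST hp lev
  have hJJ := hJ (Ω × Fin n) p (fun z => lev z.1 z.2) (Real.log (2 * n)) hp
  have hpos : ∀ z : Ω × Fin n, 0 ≤ Real.log (2 * n) - (lev z.1 z.2 : ℝ) * Real.log 2 := by
    intro z
    have hl : ((2 : ℝ) ^ lev z.1 z.2) ≤ 2 * n := by exact_mod_cast (hl1 z.1 z.2).le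
    have := Real.log_le_log (by positivity) hl
    rw [Real.log_pow] at this
    linarith
  -- the sum `S = ∑ p J log 2`
  set S : ℝ := ∑ z, p z * ((lev z.1 z.2 : ℝ) * Real.log 2) with hS
  have s1 : ∑ z, p z * Real.log ((2 : ℝ) ^ lev z.1 z.2) = S := by
    refine Finset.sum_congr rfl fun z _ => ?_
    rw [Real.log_pow]
  have s2 : ∑ z, p z * (d * (Real.log (n / 2 ^ lev z.1 z.2) + 2)) =
      d * (Real.log n + 2) - d * S := by
    have e : ∀ z : Ω × Fin n, p z * (d * (Real.log (n / 2 ^ lev z.1 z.2) + 2)) =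
        p z * (d * (Real.log n + 2)) - d * (p z * ((lev z.1 z.2 : ℝ) * Real.log 2)) := by
      intro z
      rw [Real.log_div hn0.ne' (by positivity), Real.log_pow]
      ring
    rw [Finset.sum_congr rfl fun z _ => e z, Finset.sum_sub_distrib, ← Finset.sum_mul, hp.total,
      one_mul, ← Finset.mul_sum]
  have s3 : ∑ z, p z * Real.log (2 * n / 2 ^ lev z.1 z.2) = Real.log (2 * n) - S := by
    have e : ∀ z : Ω × Fin n, p z * Real.log (2 * n / 2 ^ lev z.1 z.2) =
        p z * Real.log (2 * n) - p z * ((lev z.1 z.2 : ℝ) * Real.log 2) := by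
      intro z
      rw [Real.log_div (by positivity) (by positivity), Real.log_pow]
      ring
    rw [Finset.sum_congr rfl fun z _ => e z, Finset.sum_sub_distrib, ← Finset.sum_mul, hp.total,
      one_mul]
  have s4 : ∑ z, p z * |(lev z.1 z.2 : ℝ) * Real.log 2 - Real.log (2 * n)| =
      Real.log (2 * n) - S := by
    have e : ∀ z : Ω × Fin n, p z * |(lev z.1 z.2 : ℝ) * Real.log 2 - Real.log (2 * n)| =
        p z * Real.log (2 * n) - p z * ((lev z.1 z.2 : ℝ) * Real.log 2) := by
      intro z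
      rw [abs_sub_comm, abs_of_nonneg (hpos z)]
      ring
    rw [Finset.sum_congr rfl fun z _ => e z, Finset.sum_sub_distrib, ← Finset.sum_mul, hp.total,
      one_mul]
  have s5 : 0 ≤ Real.log (2 * n) - S := by
    rw [← s4]
    exact Finset.sum_nonneg fun z _ => mul_nonneg (hp.nonneg z) (abs_nonneg _)
  have s6 : Real.log (2 * n) = Real.log 2 + Real.log n := Real.log_mul two_ne_zero hn0.ne'
  have s7 : Real.log 2 ≤ 1 := by
    have := Real.log_two_lt_d9
    linarith
  have s8 : 0 ≤ Real.log 2 := Real.log_nonneg (by norm_num)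
  rw [s1] at hid hloc
  rw [s2] at hcol
  rw [s3] at hl3
  rw [s4] at hJJ
  -- entropies
  have a1 : H p (fun z => (QQ D lev z, z.1, z.2)) = H p id := by
    refine H_congr hp ?_ ?_
    · intro x y _ _ h
      exact congrArg Prod.snd h
    · intro x y _ _ h
      have h' : x = y := h
      rw [h']
  have a2 : H p (fun z => (QQ D lev z, z.1)) = H p (fun z => (z.1, lb (lev z.1) z.2)) := by
    refine H_congr hp ?_ ?_
    · intro x y _ _ h
      have e1 : x.1 = y.1 := congrArg (fun u => u.2) h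
      have e2 : lb (lev x.1) x.2 = lb (lev y.1) y.2 := congrArg (fun u => u.1.1) h
      exact Prod.ext e1 e2
    · intro x y _ _ h
      have e1 : x.1 = y.1 := congrArg (fun u => u.1) h
      have e2 : lb (lev x.1) x.2 = lb (lev y.1) y.2 := congrArg (fun u => u.2) h
      have e3 : lev x.1 x.2 = lev y.1 y.2 := congrArg Prod.fst e2
      refine Prod.ext (Prod.ext e2 ?_) e1
      show col n D (lev x.1 x.2) x.1 = col n D (lev y.1 y.2) y.1
      rw [e3, e1]
  have a3 : H p (fun z => (QQ D lev z, z.2, cell A D z.2 z.1)) + H p Prod.snd ≤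
      H p (fun z => (QQ D lev z, z.2)) + H p (fun z => (z.2, cell A D z.2 z.1)) := by
    refine submod' hp (h := Prod.snd) ?_ ?_ ?_
    · intro x y _ _ h
      exact congrArg (fun u => u.2) h
    · intro x y _ _ h
      exact congrArg (fun u => u.1) h
    · intro x y _ _ h
      have e1 : QQ D lev x = QQ D lev y := congrArg (fun u => u.1.1) h
      have e2 : x.2 = y.2 := congrArg (fun u => u.1.2) h
      have e3 : cell A D x.2 x.1 = cell A D y.2 y.1 := congrArg (fun u => u.2.2) h
      exact Prod.ext e1 (Prod.ext e2 e3)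
  have a4 : H p id + H p (fun z => lb (lev z.1) z.2) ≤
      H p (fun z => (lev z.1 z.2, z.2)) + H p (fun z => (z.1, lb (lev z.1) z.2)) := by
    refine submod' hp (h := fun z => lb (lev z.1) z.2) ?_ ?_ ?_
    · intro x y _ _ h
      have e1 : lev x.1 x.2 = lev y.1 y.2 := congrArg (fun u => u.1) h
      have e2 : x.2 = y.2 := congrArg (fun u => u.2) h
      show (lev x.1 x.2, (x.2 : ℕ) / 2 ^ lev x.1 x.2) = (lev y.1 y.2, (y.2 : ℕ) / 2 ^ lev y.1 y.2)
      rw [e1, e2]
    · intro x y _ _ h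
      exact congrArg (fun u => u.2) h
    · intro x y _ _ h
      have e1 : x.1 = y.1 := congrArg (fun u => u.2.1) h
      have e2 : x.2 = y.2 := congrArg (fun u => u.1.2) h
      exact Prod.ext e1 e2
  have a5 : H p (fun z => (lev z.1 z.2, z.2)) ≤ H p (fun z => lev z.1 z.2) + H p Prod.snd :=
    subadd hp (fun x y _ _ h => h)
  have a7 : b * (H p (fun z => (QQ D lev z, z.2, cell A D z.2 z.1)) -
      H p (fun z => (QQ D lev z, z.2))) ≤ b * hh A D p := by
    refine mul_le_mul_of_nonneg_left ?_ hb0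
    unfold hh
    linarith
  rw [a1, a2] at hloc
  unfold lam aa mi
  set E1 := H p id
  set E2 := H p (fun z => (z.1, lb (lev z.1) z.2))
  set E3 := H p (Prod.fst : Ω × Fin n → Ω)
  set Y : ℝ := Real.log (2 * n) - S with hY
  -- `G lam2 + (d + ε) Y ≤ g (lam2 + (1 - ε) Y)`
  have b1 : G * (S - (E1 - E2)) ≤ g * (S - (E1 - E2)) :=
    mul_le_mul_of_nonneg_right hg1 (by linarith)
  have b2 : (d + ε) * Y ≤ g * (1 - ε) * Y := mul_le_mul_of_nonneg_right hg2 s5
  have b3 : g * (S - (E1 - E2) + (1 - ε) * Y) ≤ g * ((Real.log n - (E1 - E3)) + B + 1) := by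
    refine mul_le_mul_of_nonneg_left ?_ hg0
    have : S = Real.log 2 + Real.log n - Y := by rw [hY, s6]; ring
    rw [this]
    linarith
  have b4 : d * (Real.log n + 2) - d * S ≤ d * Y + 2 * d := by
    have : (d : ℝ) * Y = d * (Real.log 2 + Real.log n) - d * S := by rw [hY, s6]; ring
    have h9 : (0 : ℝ) ≤ d * Real.log 2 := mul_nonneg (Nat.cast_nonneg _) s8
    linarith
  linarith



/-- one step of the iteration -/
theorem one_stepM (hS : S_STEPM) (hG : S_TOM) (hPSI : S_PSI) {d : ℕ} {e : ℝ}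
    (he : e = ((d : ℝ) + 1 / 1000) / (1 - 1 / 1000)) (b b' G' : ℝ) (hb : 1 < b)
    (h : AllT d b e) (h1 : (3 * b ^ 2 + 2 * b - 2) ≤ b' * (b ^ 2 + 3 * b - 2))
    (h2 : 4 * b ^ 2 + 5 * b - 4 + (3 * b - 1) * e ≤ G' * (b ^ 2 + 3 * b - 2)) :
    AllT d b' G' := by
  have he0 : 0 ≤ e := by
    rw [he]
    positivity
  have h3 := hG d b e (1 / 1000) (by linarith) (by norm_num) (by norm_num) he0 h
  rw [← he, max_self] at h3
  have h4 := hS d b e hb he0 h3
  have hpos : 0 < b ^ 2 + 3 * b - 2 := by nlinarith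
  refine Pool.Agent.W349.HM.AllT_mono hPSI ?_ ?_ h4
  · rw [div_le_iff₀ hpos]
    exact h1
  · rw [div_le_iff₀ hpos]
    exact h2

theorem ITERM (hB : S_BASET) (hS : S_STEPM) (hG : S_TOM) (hT : S_TOS) (hPSI : S_PSI) :
    S_ITERM := by
  intro d hd
  have hd' : (9 : ℝ) ≤ d := by exact_mod_cast hd
  set e : ℝ := ((d : ℝ) + 1 / 1000) / (1 - 1 / 1000) with he
  have he' : e * (999 / 1000) = d + 1 / 1000 := by
    rw [he]
    norm_num
  have he9 : (9 : ℝ) ≤ e := by linarith
  have h0 : AllT d 2 e := Pool.Agent.W349.HM.AllT_mono hPSI le_rfl (by linarith) (hB d)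
  have h1 : AllT d (7 / 4) e := one_stepM hS hG hPSI he 2 _ _ (by norm_num) h0 (by norm_num)
    (by linarith)
  have h2 : AllT d (16931 / 10000) e := one_stepM hS hG hPSI he _ _ _ (by norm_num) h1
    (by norm_num) (by linarith)
  have h3 : AllT d (16795 / 10000) e := one_stepM hS hG hPSI he _ _ _ (by norm_num) h2
    (by norm_num) (by linarith)
  have h4 : AllT d (16762 / 10000) e := one_stepM hS hG hPSI he _ _ _ (by norm_num) h3
    (by norm_num) (by linarith)
  have h5 : AllT d (16754 / 10000) e := one_stepM hS hG hPSI he _ _ _ (by norm_num) h4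
    (by norm_num) (by linarith)
  have h6 : AllT d (16752 / 10000) e := one_stepM hS hG hPSI he _ _ _ (by norm_num) h5
    (by norm_num) (by linarith)
  have h7 : AllT d (167518 / 100000) d := one_stepM hS hG hPSI he _ _ _ (by norm_num) h6
    (by norm_num) (by linarith)
  exact hT d _ d (by omega) (by norm_num) (by positivity) le_rfl h7

end Pool.Agent.Y244.HM
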