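import Pool.Agent.W46.HM.Core
import Pool.Agent.W131.HM.CapVol
import Pool.Agent.Y244.HM.Upm
import Pool.Agent.Y244.HM.Ktm
import Pool.Agent.Y244.HM.Tom
import Pool.Agent.Y244.HM.Pipe

/-!
# The arithmetic Kakeya maximal estimate from the dimension `n = 10` on
-/

set_option autoImplicit false

namespace Pool.Agent.Y244.HM
open Pool.Agent.W46.HD Pool.Agent.W46.HM Pool.Agent

theorem upm : S_UPM := UPM W85.HD.COST W85.HD.INT OCM W975.HD.G0 W975.HD.G3
  W505.HD.G4 W505.HD.G6 W505.HD.G9

theorem ktm : S_KTM := KTM W85.HD.COST W85.HD.INT OCM W975.HD.G0 W975.HD.G1 W975.HD.G3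
  W505.HD.G4 W505.HD.G5 W505.HD.G6 W505.HD.G9

theorem stepm : S_STEPM := STEPM upm ktm W135.HM.CFGT

theorem tom : S_TOM := TOM te loc hj W85.HD.COST

/-- The scale invariant inequality with exponent `1.67518` in all dimensions `d ≥ 9`. -/
theorem iterm : S_ITERM := ITERM baset stepm tom tos W976.HD.PSI

/-- The Kakeya maximal estimates with `c = 1.6752` for all `d ≥ 9`. -/
theorem weak_strong {d : ℕ} (hd : 9 ≤ d) :
    WeakP d (16752 / 10000) ∧ StrongP d (16752 / 10000) :=
  pipe (by omega) (by norm_num) (by norm_num) (iterm d hd) Pool.Agent.W131.HM.CAP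
    Pool.Agent.W131.HM.VOL

/-- The `L^q` norm of a sum of tubes, `q ≥ 1 + 1.6752 / d`, for all `d ≥ 9`. -/
theorem tubes {d : ℕ} (hd : 9 ≤ d) {q : ℝ} (hq : 1 + (16752 / 10000) / (d : ℝ) ≤ q) :
    TubeP d q := by
  have hd0 : (0 : ℝ) < d := by
    have : 0 < d := by omega
    exact_mod_cast this
  have hc : 1 / (d : ℝ) ≤ (16752 / 10000) / (d : ℝ) :=
    div_le_div_of_nonneg_right (by norm_num) hd0.le
  have h1 : LevP d (167519 / 100000) := levP (by omega) (by norm_num)
    (by norm_num : (167518 : ℝ) / 100000 < 167519 / 100000) (iterm d hd)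
  have h2 : MomP d q := momP (by omega) (by norm_num)
    (by norm_num : (167519 : ℝ) / 100000 < 16752 / 10000) hq h1
  have hq1 : 1 < q := by
    have : 0 < 1 / (d : ℝ) := by positivity
    linarith
  exact tubeP (by omega) (by linarith) (allwP (by omega) (by linarith)
    (winP (by omega) hq1 h2))

end Pool.Agent.Y244.HM
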