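import Pool.Agent.Y244.HM.Final

/-!
# All exponents above the root `α = 1.67513...` of `x ^ 3 - 4 x + 2`
-/

set_option autoImplicit false

namespace Pool.Agent.Y244.HM
open Pool.Agent.W46.HD Pool.Agent.W46.HM Pool.Agent

/-- One step of the iteration in every dimension `d ≥ 9`. -/
theorem stepD {d : ℕ} (hd : 9 ≤ d) {b b' : ℝ} (hb0 : 167 / 100 ≤ b) (hb2 : b ≤ 2)
    (h : AllT d b d) (hb' : b - (b ^ 3 - 4 * b + 2) / 8 ≤ b') (h0 : 0 ≤ b ^ 3 - 4 * b + 2) :
    AllT d b' d := by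
  have hd' : (9 : ℝ) ≤ d := by exact_mod_cast hd
  set e : ℝ := ((d : ℝ) + 1 / 1000) / (1 - 1 / 1000) with he
  have he' : e * (999 / 1000) = d + 1 / 1000 := by
    rw [he]
    norm_num
  have he9 : (d : ℝ) ≤ e := by linarith
  have hT : AllT d b e := Pool.Agent.W349.HM.AllT_mono W976.HD.PSI le_rfl he9 h
  have hD : 0 < b ^ 2 + 3 * b - 2 := by nlinarith
  have hD8 : b ^ 2 + 3 * b - 2 ≤ 8 := by nlinarith
  refine one_stepM stepm tom W976.HD.PSI he b b' d (by linarith) hT ?_ ?_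
  · have e1 : (b - (b ^ 3 - 4 * b + 2) / 8) * (b ^ 2 + 3 * b - 2) ≤ b' * (b ^ 2 + 3 * b - 2) :=
      mul_le_mul_of_nonneg_right hb' hD.le
    have e2 : (b ^ 3 - 4 * b + 2) * (b ^ 2 + 3 * b - 2) ≤ (b ^ 3 - 4 * b + 2) * 8 :=
      mul_le_mul_of_nonneg_left hD8 h0
    nlinarith
  · have e3 : e = d + (d + 1) / 999 := by linarith
    have e4 : 0 ≤ b ^ 2 - 1 - (3 * b - 1) / 999 := by nlinarith
    have e5 := mul_le_mul_of_nonneg_right hd' e4
    rw [e3]
    nlinarith

/-- All exponents above the root of `x ^ 3 - 4 x + 2`. -/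
theorem allT_alpha {d : ℕ} (hd : 9 ≤ d) {c : ℝ} (hc1 : 1 < c) (hc : 0 < c ^ 3 - 4 * c + 2) :
    AllT d c d := by
  have hd' : (9 : ℝ) ≤ d := by exact_mod_cast hd
  have h2 : AllT d 2 d :=
    Pool.Agent.W349.HM.AllT_mono W976.HD.PSI le_rfl (by linarith) (baset d)
  have hc167 : 167 / 100 ≤ c := by
    by_contra h
    push Not at h
    nlinarith [mul_pos (sub_pos.2 hc1) (sub_pos.2 h)]
  by_cases hc2 : 2 ≤ c
  · exact Pool.Agent.W349.HM.AllT_mono W976.HD.PSI hc2 le_rfl h2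
  push Not at hc2
  obtain ⟨η, hη⟩ : ∃ η : ℝ, η = (c ^ 3 - 4 * c + 2) / 8 := ⟨_, rfl⟩
  have hη0 : 0 < η := by rw [hη]; positivity
  have key : ∀ k : ℕ, AllT d (max c (2 - k * η)) d := by
    intro k
    induction k with
    | zero =>
      have : max c (2 - ((0 : ℕ) : ℝ) * η) = 2 := by
        rw [Nat.cast_zero, zero_mul, sub_zero]
        exact max_eq_right hc2.le
      rw [this]
      exact h2
    | succ k ih =>
      by_cases hk : 2 - (k : ℝ) * η ≤ c
      · rw [max_eq_left hk] at ih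
        refine Pool.Agent.W349.HM.AllT_mono W976.HD.PSI (le_max_left _ _) le_rfl ih
      · push Not at hk
        rw [max_eq_right hk.le] at ih
        set b : ℝ := 2 - (k : ℝ) * η with hb
        have hb2 : b ≤ 2 := by
          have : 0 ≤ (k : ℝ) * η := by positivity
          linarith
        have hmono : c ^ 3 - 4 * c + 2 ≤ b ^ 3 - 4 * b + 2 := by
          nlinarith [mul_nonneg (sub_nonneg.2 hk.le) (by nlinarith : 0 ≤ b ^ 2 + b * c + c ^ 2 - 4)]
        refine stepD hd (by linarith) hb2 ih ?_ (by linarith)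
        refine le_trans ?_ (le_max_right _ _)
        push_cast
        have : η ≤ (b ^ 3 - 4 * b + 2) / 8 := by rw [hη]; linarith
        linarith
  obtain ⟨k, hk⟩ := exists_nat_gt ((2 - c) / η)
  have h3 := key k
  have h4 : 2 - (k : ℝ) * η ≤ c := by
    rw [div_lt_iff₀ hη0] at hk
    linarith
  rwa [max_eq_left h4] at h3

/-- The scale invariant inequality for all exponents above the root of `x ^ 3 - 4 x + 2`. -/
theorem allS_alpha {d : ℕ} (hd : 9 ≤ d) {c : ℝ} (hc1 : 1 < c) (hc : 0 < c ^ 3 - 4 * c + 2) :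
    AllS d c :=
  tos d c d (by omega) hc1.le (by positivity) le_rfl (allT_alpha hd hc1 hc)

/-- Room below an admissible exponent. -/
theorem room {c : ℝ} (hc1 : 1 < c) (hc : 0 < c ^ 3 - 4 * c + 2) :
    ∃ b : ℝ, 1 < b ∧ b < c ∧ 0 < b ^ 3 - 4 * b + 2 := by
  obtain ⟨t, ht⟩ : ∃ t : ℝ, t = min ((c - 1) / 2) ((c ^ 3 - 4 * c + 2) / (3 * c ^ 2 + 1)) :=
    ⟨_, rfl⟩
  have ht0 : 0 < t := by
    rw [ht]
    refine lt_min (by linarith) (by positivity)
  have ht1 : t ≤ (c - 1) / 2 := ht ▸ min_le_left _ _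
  have ht2 : t * (3 * c ^ 2 + 1) ≤ c ^ 3 - 4 * c + 2 := by
    rw [← le_div_iff₀ (by positivity)]
    exact ht ▸ min_le_right _ _
  refine ⟨c - t, by linarith, by linarith, ?_⟩
  have e1 : (c - t) ^ 3 - 4 * (c - t) + 2 =
      (c ^ 3 - 4 * c + 2 - t * (3 * c ^ 2 + 1)) + (5 * t + t ^ 2 * (3 * c - t)) := by ring
  rw [e1]
  have e2 : 0 < t ^ 2 * (3 * c - t) := mul_pos (by positivity) (by linarith)
  linarith

/-- The Kakeya maximal estimates for all `d ≥ 9` and all admissible exponents. -/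
theorem weak_strong_alpha {d : ℕ} (hd : 9 ≤ d) {c : ℝ} (hc1 : 1 < c)
    (hc : 0 < c ^ 3 - 4 * c + 2) : WeakP d c ∧ StrongP d c := by
  obtain ⟨b, hb1, hbc, hb⟩ := room hc1 hc
  exact pipe (by omega) hb1.le hbc (allS_alpha hd hb1 hb) Pool.Agent.W131.HM.CAP
    Pool.Agent.W131.HM.VOL

/-- The `L^q` norm of a sum of tubes for all `d ≥ 9` and `q ≥ 1 + c / d`, `c` admissible. -/
theorem tubes_alpha {d : ℕ} (hd : 9 ≤ d) {c q : ℝ} (hc1 : 1 < c)
    (hc : 0 < c ^ 3 - 4 * c + 2) (hq : 1 + c / (d : ℝ) ≤ q) : TubeP d q := by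
  obtain ⟨b, hb1, hbc, hb⟩ := room hc1 hc
  have hd0 : (0 : ℝ) < d := by
    have : 0 < d := by omega
    exact_mod_cast this
  have hcd : 1 / (d : ℝ) ≤ c / (d : ℝ) := div_le_div_of_nonneg_right hc1.le hd0.le
  have h1 : LevP d ((b + c) / 2) := levP (by omega) hb1.le (by linarith) (allS_alpha hd hb1 hb)
  have h2 : MomP d q := momP (by omega) (by linarith)
    (by linarith : (b + c) / 2 < c) hq h1
  have hq1 : 1 < q := by
    have : 0 < 1 / (d : ℝ) := by positivity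
    linarith
  exact tubeP (by omega) (by linarith) (allwP (by omega) (by linarith)
    (winP (by omega) hq1 h2))

end Pool.Agent.Y244.HM
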